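import Pool.Agent.R988.BM.Fin

/-!
# Bounded amenable groups on a space isomorphic to a Hilbert space preserve an inner product
-/

set_option autoImplicit false

namespace Pool.R988.BM

open scoped InnerProductSpace Quaternion

/-- a copy of the vector space `E` -/
def Syn (E : Type) : Type := E

instance {E : Type} [i : NormedAddCommGroup E] : AddCommGroup (Syn E) := i.toAddCommGroup

noncomputable instance {E : Type} [NormedAddCommGroup E] [i : NormedSpace ℝ E] : Module ℝ (Syn E) :=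
  i.toModule

/-- an equivalent inner product gives an isomorphism with a Hilbert space -/
theorem exists_hilb {E : Type} [NormedAddCommGroup E] [NormedSpace ℝ E] (β : E → E → ℝ)
    (hsymm : ∀ x y, β x y = β y x) (hadd : ∀ x y z, β (x + y) z = β x z + β y z)
    (hsmul : ∀ (r : ℝ) x y, β (r • x) y = r * β x y) {c C : ℝ} (hc : 0 < c)
    (hlow : ∀ x, c * ‖x‖ ^ 2 ≤ β x x) (hupp : ∀ x, β x x ≤ C * ‖x‖ ^ 2) :
    ∃ (K : Type) (_ : NormedAddCommGroup K) (_ : InnerProductSpace ℝ K) (Ψ : E ≃L[ℝ] K),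
      ∀ x, ‖Ψ x‖ ^ 2 = β x x := by
  have hnn : ∀ x, 0 ≤ β x x := fun x => le_trans (by positivity) (hlow x)
  let core : InnerProductSpace.Core ℝ (Syn E) :=
    { inner := fun x y => β x y
      conj_inner_symm := fun x y => by
        show (starRingEnd ℝ) (β y x) = β x y
        rw [conj_trivial]; exact hsymm y x
      re_inner_nonneg := fun x => by
        show 0 ≤ RCLike.re (β x x)
        simpa using hnn x
      add_left := fun x y z => hadd x y z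
      smul_left := fun x y r => by
        show β (r • (show E from x)) y = (starRingEnd ℝ) r * β x y
        rw [conj_trivial]; exact hsmul r x y
      definite := fun x hx => by
        have h1 := hlow x
        have h2 : β x x = 0 := hx
        rw [h2] at h1
        have h3 : ‖(show E from x)‖ ^ 2 ≤ 0 := by
          by_contra hcon
          push Not at hcon
          nlinarith
        have h4 : ‖(show E from x)‖ = 0 := by
          have := sq_nonneg ‖(show E from x)‖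
          have h5 : ‖(show E from x)‖ ^ 2 = 0 := le_antisymm h3 this
          exact pow_eq_zero_iff two_ne_zero |>.1 h5
        exact norm_eq_zero.1 h4 }
  letI i1 : NormedAddCommGroup (Syn E) := core.toNormedAddCommGroup
  letI i2 : InnerProductSpace ℝ (Syn E) := InnerProductSpace.ofCore core.toCore
  have hn : ∀ x : E, ‖(show Syn E from x)‖ ^ 2 = β x x := by
    intro x
    rw [← real_inner_self_eq_norm_sq]
    rfl
  let L : E ≃ₗ[ℝ] Syn E :=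
    { toFun := fun x => x
      invFun := fun x => x
      map_add' := fun _ _ => rfl
      map_smul' := fun _ _ => rfl
      left_inv := fun _ => rfl
      right_inv := fun _ => rfl }
  have h1 : ∀ x : E, ‖L x‖ ≤ Real.sqrt C * ‖x‖ := by
    intro x
    have e1 : ‖L x‖ ^ 2 = β x x := hn x
    by_cases hC : 0 ≤ C
    · have e2 : ‖L x‖ ^ 2 ≤ (Real.sqrt C * ‖x‖) ^ 2 := by
        rw [e1, mul_pow, Real.sq_sqrt hC]
        exact hupp x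
      exact le_of_sq_le_sq e2 (by positivity)
    · push Not at hC
      have e3 := hupp x
      have e4 := hlow x
      have e5 : ‖x‖ ^ 2 = 0 := by
        have := sq_nonneg ‖x‖
        nlinarith
      have e6 : ‖L x‖ ^ 2 ≤ 0 := by rw [e1]; rw [e5] at e3; linarith
      have e7 : ‖L x‖ = 0 := by
        have := sq_nonneg ‖L x‖
        exact pow_eq_zero_iff two_ne_zero |>.1 (le_antisymm e6 this)
      rw [e7]; positivity
  have h2 : ∀ x : Syn E, ‖L.symm x‖ ≤ (Real.sqrt c)⁻¹ * ‖x‖ := by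
    intro x
    have e1 : ‖x‖ ^ 2 = β (L.symm x) (L.symm x) := hn (L.symm x)
    have e2 := hlow (L.symm x)
    rw [← e1] at e2
    have hsc : 0 < Real.sqrt c := Real.sqrt_pos.2 hc
    have e3 : (Real.sqrt c * ‖L.symm x‖) ^ 2 ≤ ‖x‖ ^ 2 := by
      rw [mul_pow, Real.sq_sqrt hc.le]; exact e2
    have e4 := le_of_sq_le_sq e3 (norm_nonneg _)
    rw [inv_mul_eq_div, le_div_iff₀ hsc]
    linarith
  exact ⟨Syn E, i1, i2, L.toContinuousLinearEquivOfBounds _ _ h1 h2, fun x => hn x⟩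

variable {E : Type} [NormedAddCommGroup E] [NormedSpace ℝ E]

/-- bounded functions on a group `N` of operators with `sup_T |F (T S) - F T| → 0` as `S → 1` in the
strong operator topology -/
def UCN (N : Subgroup (E ≃L[ℝ] E)) (F : N → ℝ) : Prop :=
  (∃ C : ℝ, ∀ T, |F T| ≤ C) ∧
    ∀ ε : ℝ, 0 < ε → ∃ (Z : Finset E) (δ : ℝ), 0 < δ ∧ ∀ T S : N,
      (∀ z ∈ Z, ‖(S : E ≃L[ℝ] E) z - z‖ ≤ δ) → |F (T * S) - F T| ≤ ε

/-- amenability of a group of operators with the strong operator topology -/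
def AmenableN (N : Subgroup (E ≃L[ℝ] E)) : Prop :=
  ∃ M : (N → ℝ) → ℝ,
    (∀ F F', UCN N F → UCN N F' → M (fun T => F T + F' T) = M F + M F') ∧
    (∀ (r : ℝ) F, UCN N F → M (fun T => r * F T) = r * M F) ∧
    (∀ F, UCN N F → (∀ T, 0 ≤ F T) → 0 ≤ M F) ∧
    M (fun _ => 1) = 1 ∧
    ∀ (S : N) F, UCN N F → M (fun T => F (T * S)) = M F

lemma ucn_const (N : Subgroup (E ≃L[ℝ] E)) (r : ℝ) : UCN N (fun _ => r) :=
  ⟨⟨|r|, fun _ => le_rfl⟩, fun ε hε => ⟨∅, 1, one_pos, fun _ _ _ => by simpa using hε.le⟩⟩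

lemma ucn_add {N : Subgroup (E ≃L[ℝ] E)} {F F' : N → ℝ} (h : UCN N F) (h' : UCN N F') :
    UCN N (fun T => F T + F' T) := by
  classical
  obtain ⟨⟨C, hC⟩, hu⟩ := h
  obtain ⟨⟨C', hC'⟩, hu'⟩ := h'
  refine ⟨⟨C + C', fun T => (abs_add_le _ _).trans (add_le_add (hC T) (hC' T))⟩, fun ε hε => ?_⟩
  obtain ⟨Z, δ, hδ, h1⟩ := hu (ε / 2) (by positivity)
  obtain ⟨Z', δ', hδ', h1'⟩ := hu' (ε / 2) (by positivity)
  refine ⟨Z ∪ Z', min δ δ', lt_min hδ hδ', fun T S hS => ?_⟩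
  have h2 := h1 T S (fun z hz => (hS z (Finset.mem_union_left _ hz)).trans (min_le_left _ _))
  have h3 := h1' T S (fun z hz => (hS z (Finset.mem_union_right _ hz)).trans (min_le_right _ _))
  have h4 : F (T * S) + F' (T * S) - (F T + F' T) =
      (F (T * S) - F T) + (F' (T * S) - F' T) := by ring
  rw [h4]
  refine (abs_add_le _ _).trans ?_
  linarith

lemma ucn_mul {N : Subgroup (E ≃L[ℝ] E)} {F : N → ℝ} (r : ℝ) (h : UCN N F) :
    UCN N (fun T => r * F T) := by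
  obtain ⟨⟨C, hC⟩, hu⟩ := h
  refine ⟨⟨|r| * C, fun T => ?_⟩, fun ε hε => ?_⟩
  · rw [abs_mul]
    exact mul_le_mul_of_nonneg_left (hC T) (abs_nonneg _)
  · obtain ⟨Z, δ, hδ, h1⟩ := hu (ε / (|r| + 1)) (by positivity)
    refine ⟨Z, δ, hδ, fun T S hS => ?_⟩
    have h2 := h1 T S hS
    rw [← mul_sub, abs_mul]
    have h3 : |r| * |F (T * S) - F T| ≤ |r| * (ε / (|r| + 1)) :=
      mul_le_mul_of_nonneg_left h2 (abs_nonneg _)
    have h4 : |r| * (ε / (|r| + 1)) ≤ ε := by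
      rw [mul_div_assoc', div_le_iff₀ (by positivity)]
      nlinarith [abs_nonneg r]
    linarith

variable {H : Type} [NormedAddCommGroup H] [InnerProductSpace ℝ H]

lemma ucn_inner (Φ : E ≃L[ℝ] H) {N : Subgroup (E ≃L[ℝ] E)} {c : ℝ}
    (hb : ∀ S ∈ N, ∀ x, ‖S x‖ ≤ c * ‖x‖) (x y : E) :
    UCN N (fun T => ⟪Φ ((T : E ≃L[ℝ] E) x), Φ ((T : E ≃L[ℝ] E) y)⟫_ℝ) := by
  classical
  set a : ℝ := ‖(Φ : E →L[ℝ] H)‖ with ha
  have ha0 : 0 ≤ a := norm_nonneg _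
  have hc' : ∀ S ∈ N, ∀ x, ‖S x‖ ≤ |c| * ‖x‖ := fun S hS x =>
    (hb S hS x).trans (mul_le_mul_of_nonneg_right (le_abs_self c) (norm_nonneg _))
  have hk : ∀ (T : N) (z : E), ‖Φ ((T : E ≃L[ℝ] E) z)‖ ≤ a * |c| * ‖z‖ := by
    intro T z
    have h1 := (Φ : E →L[ℝ] H).le_opNorm ((T : E ≃L[ℝ] E) z)
    have h2 := hc' T T.2 z
    calc ‖Φ ((T : E ≃L[ℝ] E) z)‖ ≤ a * ‖(T : E ≃L[ℝ] E) z‖ := h1
      _ ≤ a * (|c| * ‖z‖) := mul_le_mul_of_nonneg_left h2 ha0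
      _ = a * |c| * ‖z‖ := by ring
  set m : ℝ := a * |c| with hm
  have hm0 : 0 ≤ m := by positivity
  have hin : ∀ (T : N) (z w : E), |⟪Φ ((T : E ≃L[ℝ] E) z), Φ ((T : E ≃L[ℝ] E) w)⟫_ℝ| ≤
      m ^ 2 * (‖z‖ * ‖w‖) := by
    intro T z w
    refine (abs_real_inner_le_norm _ _).trans ?_
    have := mul_le_mul (hk T z) (hk T w) (norm_nonneg _) (by positivity)
    calc _ ≤ m * ‖z‖ * (m * ‖w‖) := this
      _ = m ^ 2 * (‖z‖ * ‖w‖) := by ring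
  refine ⟨⟨m ^ 2 * (‖x‖ * ‖y‖), fun T => hin T x y⟩, fun ε hε => ?_⟩
  set D : ℝ := m ^ 2 * (‖x‖ + 2 * ‖y‖ + 1) + 1 with hD
  have hDpos : 0 < D := by positivity
  refine ⟨{x, y}, min 1 (ε / D), by positivity, fun T S hS => ?_⟩
  have hx := hS x (by simp)
  have hy := hS y (by simp)
  have hy1 : ‖(S : E ≃L[ℝ] E) y - y‖ ≤ 1 := hy.trans (min_le_left _ _)
  have hx2 : ‖(S : E ≃L[ℝ] E) x - x‖ ≤ ε / D := hx.trans (min_le_right _ _)
  have hy2 : ‖(S : E ≃L[ℝ] E) y - y‖ ≤ ε / D := hy.trans (min_le_right _ _)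
  have hSy : ‖(S : E ≃L[ℝ] E) y‖ ≤ ‖y‖ + 1 := by
    have : (S : E ≃L[ℝ] E) y = y + ((S : E ≃L[ℝ] E) y - y) := by abel
    rw [this]
    exact (norm_add_le _ _).trans (by linarith)
  show |⟪Φ ((T : E ≃L[ℝ] E) ((S : E ≃L[ℝ] E) x)), Φ ((T : E ≃L[ℝ] E) ((S : E ≃L[ℝ] E) y))⟫_ℝ -
    ⟪Φ ((T : E ≃L[ℝ] E) x), Φ ((T : E ≃L[ℝ] E) y)⟫_ℝ| ≤ ε
  have hdec : ⟪Φ ((T : E ≃L[ℝ] E) ((S : E ≃L[ℝ] E) x)), Φ ((T : E ≃L[ℝ] E) ((S : E ≃L[ℝ] E) y))⟫_ℝ -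
      ⟪Φ ((T : E ≃L[ℝ] E) x), Φ ((T : E ≃L[ℝ] E) y)⟫_ℝ =
      ⟪Φ ((T : E ≃L[ℝ] E) ((S : E ≃L[ℝ] E) x - x)), Φ ((T : E ≃L[ℝ] E) ((S : E ≃L[ℝ] E) y))⟫_ℝ +
      ⟪Φ ((T : E ≃L[ℝ] E) x), Φ ((T : E ≃L[ℝ] E) ((S : E ≃L[ℝ] E) y - y))⟫_ℝ := by
    rw [map_sub, map_sub, map_sub, map_sub, inner_sub_left, inner_sub_right]
    ring
  rw [hdec]
  refine (abs_add_le _ _).trans ?_
  have h1 := hin T ((S : E ≃L[ℝ] E) x - x) ((S : E ≃L[ℝ] E) y)
  have h2 := hin T x ((S : E ≃L[ℝ] E) y - y)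
  have h3 : ‖(S : E ≃L[ℝ] E) x - x‖ * ‖(S : E ≃L[ℝ] E) y‖ ≤ ε / D * (‖y‖ + 1) :=
    mul_le_mul hx2 hSy (norm_nonneg _) (by positivity)
  have h4 : ‖x‖ * ‖(S : E ≃L[ℝ] E) y - y‖ ≤ ‖x‖ * (ε / D) :=
    mul_le_mul_of_nonneg_left hy2 (norm_nonneg _)
  have h5 : m ^ 2 * (ε / D * (‖y‖ + 1)) + m ^ 2 * (‖x‖ * (ε / D)) ≤ ε := by
    have h6 : m ^ 2 * (ε / D * (‖y‖ + 1)) + m ^ 2 * (‖x‖ * (ε / D)) =
        (m ^ 2 * (‖y‖ + 1 + ‖x‖)) * ε / D := by ring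
    rw [h6, div_le_iff₀ hDpos]
    have h7 : m ^ 2 * (‖y‖ + 1 + ‖x‖) ≤ D := by
      rw [hD]
      nlinarith [norm_nonneg y, sq_nonneg m, mul_nonneg (sq_nonneg m) (norm_nonneg y)]
    nlinarith
  have h8 := mul_le_mul_of_nonneg_left h3 (sq_nonneg m)
  have h9 := mul_le_mul_of_nonneg_left h4 (sq_nonneg m)
  linarith

/-- bounded amenable groups preserve an equivalent inner product -/
theorem amen_unit (Φ : E ≃L[ℝ] H) {N : Subgroup (E ≃L[ℝ] E)} {c : ℝ}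
    (hb : ∀ S ∈ N, ∀ x, ‖S x‖ ≤ c * ‖x‖) (hA : AmenableN N) :
    ∃ (K : Type) (_ : NormedAddCommGroup K) (_ : InnerProductSpace ℝ K) (Ψ : E ≃L[ℝ] K),
      ∀ S ∈ N, ∀ x, ‖Ψ (S x)‖ = ‖Ψ x‖ := by
  obtain ⟨M, hadd, hmul, hpos, hone, hinv⟩ := hA
  set f : E → E → N → ℝ := fun x y T => ⟪Φ ((T : E ≃L[ℝ] E) x), Φ ((T : E ≃L[ℝ] E) y)⟫_ℝ with hf
  have hU : ∀ x y, UCN N (f x y) := fun x y => ucn_inner Φ hb x y
  set a : ℝ := ‖(Φ : E →L[ℝ] H)‖ with ha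
  set a' : ℝ := ‖(Φ.symm : H →L[ℝ] E)‖ with ha'
  have ha0 : 0 ≤ a := norm_nonneg _
  have ha'0 : 0 ≤ a' := norm_nonneg _
  have hcabs : ∀ S ∈ N, ∀ x, ‖S x‖ ≤ (|c| + 1) * ‖x‖ := fun S hS x =>
    (hb S hS x).trans (mul_le_mul_of_nonneg_right ((le_abs_self c).trans (by linarith)) (norm_nonneg _))
  have hmono : ∀ F F' : N → ℝ, UCN N F → UCN N F' → (∀ T, F T ≤ F' T) → M F ≤ M F' := by
    intro F F' h h' hle
    have h1 := hpos _ (ucn_add h' (ucn_mul (-1) h)) (fun T => by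
      have := hle T
      show 0 ≤ F' T + -1 * F T
      linarith)
    rw [hadd _ _ h' (ucn_mul (-1) h), hmul _ _ h] at h1
    linarith
  have hconst : ∀ r : ℝ, M (fun _ => r) = r := by
    intro r
    have h1 := hmul r (fun _ => 1) (ucn_const N 1)
    rw [hone] at h1
    simpa using h1
  have hex := exists_hilb (E := E) (fun x y => M (f x y)) (fun x y => ?_) (fun x y z => ?_)
    (fun r x y => ?_) (c := ((a' + 1) ^ 2 * (|c| + 1) ^ 2)⁻¹) (C := a ^ 2 * (|c| + 1) ^ 2)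
    (by positivity) (fun x => ?_) (fun x => ?_)
  · obtain ⟨K, i1, i2, Ψ, hΨ⟩ := hex
    refine ⟨K, i1, i2, Ψ, fun S hS x => ?_⟩
    have h1 : ‖Ψ (S x)‖ ^ 2 = ‖Ψ x‖ ^ 2 := by
      rw [hΨ, hΨ]
      exact hinv ⟨S, hS⟩ (f x x) (hU x x)
    exact (pow_left_inj₀ (norm_nonneg _) (norm_nonneg _) two_ne_zero).1 h1
  · show M (f x y) = M (f y x)
    congr 1
    funext T
    exact real_inner_comm _ _
  · show M (f (x + y) z) = M (f x z) + M (f y z)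
    rw [← hadd _ _ (hU x z) (hU y z)]
    congr 1
    funext T
    show ⟪Φ ((T : E ≃L[ℝ] E) (x + y)), Φ ((T : E ≃L[ℝ] E) z)⟫_ℝ = _
    rw [map_add, map_add, inner_add_left]
  · show M (f (r • x) y) = r * M (f x y)
    rw [← hmul _ _ (hU x y)]
    congr 1
    funext T
    show ⟪Φ ((T : E ≃L[ℝ] E) (r • x)), Φ ((T : E ≃L[ℝ] E) y)⟫_ℝ = _
    rw [map_smul, map_smul, inner_smul_left, conj_trivial]
  · show ((a' + 1) ^ 2 * (|c| + 1) ^ 2)⁻¹ * ‖x‖ ^ 2 ≤ M (f x x)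
    rw [← hconst (((a' + 1) ^ 2 * (|c| + 1) ^ 2)⁻¹ * ‖x‖ ^ 2)]
    refine hmono _ _ (ucn_const N _) (hU x x) fun T => ?_
    show _ ≤ ⟪Φ ((T : E ≃L[ℝ] E) x), Φ ((T : E ≃L[ℝ] E) x)⟫_ℝ
    rw [real_inner_self_eq_norm_sq]
    have h1 : ‖x‖ ≤ (|c| + 1) * ‖(T : E ≃L[ℝ] E) x‖ := by
      have := hcabs ((T : E ≃L[ℝ] E)⁻¹) (N.inv_mem T.2) ((T : E ≃L[ℝ] E) x)
      have e : ((T : E ≃L[ℝ] E)⁻¹ : E ≃L[ℝ] E) ((T : E ≃L[ℝ] E) x) = x :=
        (T : E ≃L[ℝ] E).symm_apply_apply x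
      rwa [e] at this
    have h2 : ‖(T : E ≃L[ℝ] E) x‖ ≤ (a' + 1) * ‖Φ ((T : E ≃L[ℝ] E) x)‖ := by
      have := (Φ.symm : H →L[ℝ] E).le_opNorm (Φ ((T : E ≃L[ℝ] E) x))
      have e : (Φ.symm : H →L[ℝ] E) (Φ ((T : E ≃L[ℝ] E) x)) = (T : E ≃L[ℝ] E) x := Φ.symm_apply_apply _
      rw [e] at this
      refine this.trans (mul_le_mul_of_nonneg_right (by linarith) (norm_nonneg _))
    have h3 : ‖x‖ ≤ (a' + 1) * (|c| + 1) * ‖Φ ((T : E ≃L[ℝ] E) x)‖ := by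
      calc ‖x‖ ≤ (|c| + 1) * ‖(T : E ≃L[ℝ] E) x‖ := h1
        _ ≤ (|c| + 1) * ((a' + 1) * ‖Φ ((T : E ≃L[ℝ] E) x)‖) :=
            mul_le_mul_of_nonneg_left h2 (by positivity)
        _ = _ := by ring
    have h4 := pow_le_pow_left₀ (norm_nonneg x) h3 2
    rw [inv_mul_le_iff₀ (by positivity)]
    calc ‖x‖ ^ 2 ≤ _ := h4
      _ = _ := by ring
  · show M (f x x) ≤ a ^ 2 * (|c| + 1) ^ 2 * ‖x‖ ^ 2
    rw [← hconst (a ^ 2 * (|c| + 1) ^ 2 * ‖x‖ ^ 2)]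
    refine hmono _ _ (hU x x) (ucn_const N _) fun T => ?_
    show ⟪Φ ((T : E ≃L[ℝ] E) x), Φ ((T : E ≃L[ℝ] E) x)⟫_ℝ ≤ _
    rw [real_inner_self_eq_norm_sq]
    have h1 := (Φ : E →L[ℝ] H).le_opNorm ((T : E ≃L[ℝ] E) x)
    have h2 := hcabs T T.2 x
    have h3 : ‖Φ ((T : E ≃L[ℝ] E) x)‖ ≤ a * (|c| + 1) * ‖x‖ := by
      calc ‖Φ ((T : E ≃L[ℝ] E) x)‖ ≤ a * ‖(T : E ≃L[ℝ] E) x‖ := h1
        _ ≤ a * ((|c| + 1) * ‖x‖) := mul_le_mul_of_nonneg_left h2 ha0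
        _ = _ := by ring
    have h4 := pow_le_pow_left₀ (norm_nonneg _) h3 2
    calc _ ≤ _ := h4
      _ = _ := by ring

end Pool.R988.BM
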