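import Pool.Agent.R988.BM.VN

/-!
# A factor on a separable Hilbert space has a cyclic vector, or its commutant has one
-/

set_option autoImplicit false

namespace Pool.R988.BM

open scoped InnerProductSpace

variable {H : Type*} [NormedAddCommGroup H] [InnerProductSpace ℝ H] [CompleteSpace H]

/-- the projection onto an invariant closed subspace is in the commutant -/
lemma proj_mem {S : Set (H →L[ℝ] H)} (hS : SC S) (K : Submodule ℝ H) [K.HasOrthogonalProjection]
    (hK : ∀ a ∈ S, ∀ k ∈ K, a k ∈ K) : K.starProjection ∈ S.centralizer := by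
  intro a ha
  ext v
  show a (K.starProjection v) = K.starProjection (a v)
  refine Submodule.eq_starProjection_of_mem_of_inner_eq_zero
    (hK a ha _ (Submodule.starProjection_apply_mem K v)) ?_ |>.symm
  intro w hw
  rw [← map_sub, ← ContinuousLinearMap.adjoint_inner_right]
  exact Submodule.starProjection_inner_eq_zero v _ (hK _ (hS a ha) w hw)

/-- the closed subspace generated by `a x`, `a ∈ S` -/
def cyc (S : Set (H →L[ℝ] H)) (x : H) : Submodule ℝ H :=
  (Submodule.span ℝ {y | ∃ a ∈ S, y = a x}).topologicalClosure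

lemma cyc_closed (S : Set (H →L[ℝ] H)) (x : H) : IsClosed (cyc S x : Set H) :=
  Submodule.isClosed_topologicalClosure _

instance (S : Set (H →L[ℝ] H)) (x : H) : (cyc S x).HasOrthogonalProjection :=
  haveI : CompleteSpace (cyc S x) := (cyc_closed S x).completeSpace_coe
  inferInstance

lemma mem_cyc {S : Set (H →L[ℝ] H)} {a : H →L[ℝ] H} (ha : a ∈ S) (x : H) : a x ∈ cyc S x :=
  Submodule.le_topologicalClosure _ (Submodule.subset_span ⟨a, ha, rfl⟩)

lemma cyc_le {S : Set (H →L[ℝ] H)} {x : H} {K : Submodule ℝ H} (hK : IsClosed (K : Set H))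
    (h : ∀ a ∈ S, a x ∈ K) : cyc S x ≤ K := by
  refine Submodule.topologicalClosure_minimal _ (Submodule.span_le.2 ?_) hK
  rintro y ⟨a, ha, rfl⟩
  exact h a ha

lemma clos_inv {K : Submodule ℝ H} {a : H →L[ℝ] H} (h : ∀ k ∈ K, a k ∈ K) :
    ∀ k ∈ K.topologicalClosure, a k ∈ K.topologicalClosure := by
  intro k hk
  exact map_mem_closure a.continuous hk h

lemma cyc_inv {S : Set (H →L[ℝ] H)} (hmul : ∀ a ∈ S, ∀ b ∈ S, a * b ∈ S) (x : H) :
    ∀ a ∈ S, ∀ k ∈ cyc S x, a k ∈ cyc S x := by
  intro a ha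
  refine clos_inv fun k hk => ?_
  induction hk using Submodule.span_induction with
  | mem y hy =>
    obtain ⟨b, hb, rfl⟩ := hy
    exact Submodule.subset_span ⟨a * b, hmul a ha b hb, rfl⟩
  | zero => rw [map_zero]; exact Submodule.zero_mem _
  | add y z _ _ hy hz => rw [map_add]; exact Submodule.add_mem _ hy hz
  | smul r y _ hy => rw [map_smul]; exact Submodule.smul_mem _ r hy

/-- two mutual commutants, closed under adjoints, with trivial centre -/
structure Fac (B C : Set (H →L[ℝ] H)) : Prop where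
  hB : B = C.centralizer
  hC : C = B.centralizer
  sB : SC B
  sC : SC C
  center : ∀ z ∈ B, z ∈ C → z * z = z → z = 0 ∨ z = 1

lemma Fac.symm {B C : Set (H →L[ℝ] H)} (h : Fac B C) : Fac C B :=
  ⟨h.hC, h.hB, h.sC, h.sB, fun z h1 h2 h3 => h.center z h2 h1 h3⟩

lemma Fac.comm {B C : Set (H →L[ℝ] H)} (h : Fac B C) {b c : H →L[ℝ] H} (hb : b ∈ B) (hc : c ∈ C) :
    b * c = c * b := by
  have := hc
  rw [h.hC] at this
  exact this b hb

lemma Fac.mul {B C : Set (H →L[ℝ] H)} (h : Fac B C) : ∀ a ∈ B, ∀ b ∈ B, a * b ∈ B := by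
  intro a ha b hb
  rw [h.hB] at ha hb ⊢
  exact cm_mul ha hb

lemma Fac.one {B C : Set (H →L[ℝ] H)} (h : Fac B C) : (1 : H →L[ℝ] H) ∈ B := by
  rw [h.hB]; exact cm_one

/-- products of nonzero elements of a factor and its commutant are not zero -/
lemma Fac.prime {B C : Set (H →L[ℝ] H)} (h : Fac B C) {e f : H →L[ℝ] H} (he : e ∈ B) (hf : f ∈ C)
    (he0 : e ≠ 0) (hfe : f * e = 0) : f = 0 := by
  set K0 : Submodule ℝ H := Submodule.span ℝ {y | ∃ b ∈ B, ∃ v, y = b (e v)} with hK0
  set K : Submodule ℝ H := K0.topologicalClosure with hK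
  haveI : CompleteSpace K := (Submodule.isClosed_topologicalClosure K0).completeSpace_coe
  have hKB : ∀ a ∈ B, ∀ k ∈ K, a k ∈ K := by
    intro a ha
    refine clos_inv fun k hk => ?_
    induction hk using Submodule.span_induction with
    | mem y hy =>
      obtain ⟨b, hb, v, rfl⟩ := hy
      exact Submodule.subset_span ⟨a * b, h.mul a ha b hb, v, rfl⟩
    | zero => rw [map_zero]; exact Submodule.zero_mem _
    | add y z _ _ hy hz => rw [map_add]; exact Submodule.add_mem _ hy hz
    | smul r y _ hy => rw [map_smul]; exact Submodule.smul_mem _ r hy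
  have hKC : ∀ a ∈ C, ∀ k ∈ K, a k ∈ K := by
    intro a ha
    refine clos_inv fun k hk => ?_
    induction hk using Submodule.span_induction with
    | mem y hy =>
      obtain ⟨b, hb, v, rfl⟩ := hy
      refine Submodule.subset_span ⟨b, hb, a v, ?_⟩
      have h1 : a * (b * e) = (b * e) * a := (h.comm (h.mul b hb e he) ha).symm
      exact congrArg (fun T : H →L[ℝ] H => T v) h1
    | zero => rw [map_zero]; exact Submodule.zero_mem _
    | add y z _ _ hy hz => rw [map_add]; exact Submodule.add_mem _ hy hz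
    | smul r y _ hy => rw [map_smul]; exact Submodule.smul_mem _ r hy
  have hP1 : K.starProjection ∈ C := by rw [h.hC]; exact proj_mem h.sB K hKB
  have hP2 : K.starProjection ∈ B := by rw [h.hB]; exact proj_mem h.sC K hKC
  have hid : K.starProjection * K.starProjection = K.starProjection :=
    Submodule.isIdempotentElem_starProjection K
  rcases h.center _ hP2 hP1 hid with h0 | h0
  · exfalso
    apply he0
    ext v
    have h1 : e v ∈ K := Submodule.le_topologicalClosure _
      (Submodule.subset_span ⟨1, h.one, v, rfl⟩)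
    have h2 := Submodule.starProjection_eq_self_iff.2 h1
    rw [h0] at h2
    exact h2.symm
  · ext v
    have h1 : v ∈ K := by
      rw [← Submodule.starProjection_eq_self_iff, h0]; rfl
    have h2 : ∀ k ∈ K, f k = 0 := by
      intro k hk
      have h3 : K ≤ LinearMap.ker (f : H →ₗ[ℝ] H) := by
        refine Submodule.topologicalClosure_minimal _ (Submodule.span_le.2 ?_) f.isClosed_ker
        rintro y ⟨b, hb, w, rfl⟩
        show f (b (e w)) = 0
        have h4 : f * (b * e) = 0 := by
          rw [← mul_assoc, ← h.comm hb hf, mul_assoc, hfe, mul_zero]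
        exact congrArg (fun T : H →L[ℝ] H => T w) h4
      exact h3 hk
    exact h2 v h1

/-- the exhaustion argument -/
theorem Fac.exists_cyclic [Nontrivial H] [TopologicalSpace.SeparableSpace H]
    {B C : Set (H →L[ℝ] H)} (h : Fac B C) :
    ∃ x : H, x ≠ 0 ∧ (cyc B x = ⊤ ∨ cyc C x = ⊤) := by
  classical
  set R : H → H → Prop := fun y z => (∀ b ∈ B, ⟪b y, z⟫_ℝ = 0) ∧ (∀ c ∈ C, ⟪c y, z⟫_ℝ = 0) with hR
  have hRsymm : ∀ y z, R y z → R z y := by
    rintro y z ⟨h1, h2⟩
    refine ⟨fun b hb => ?_, fun c hc => ?_⟩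
    · have := h1 (star b) (h.sB b hb)
      rw [ContinuousLinearMap.star_eq_adjoint, ContinuousLinearMap.adjoint_inner_left] at this
      rw [real_inner_comm]; exact this
    · have := h2 (star c) (h.sC c hc)
      rw [ContinuousLinearMap.star_eq_adjoint, ContinuousLinearMap.adjoint_inner_left] at this
      rw [real_inner_comm]; exact this
  set 𝒲 : Set (Set H) := {W | (∀ y ∈ W, y ≠ 0) ∧ ∀ y ∈ W, ∀ z ∈ W, y ≠ z → R y z} with hW
  obtain ⟨W, hWm⟩ : ∃ W, Maximal (fun W => W ∈ 𝒲) W := by
    refine zorn_subset 𝒲 fun c hc hchain => ⟨⋃₀ c, ⟨?_, ?_⟩, fun s hs => Set.subset_sUnion_of_mem hs⟩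
    · rintro y ⟨s, hs, hy⟩
      exact (hc hs).1 y hy
    · rintro y ⟨s, hs, hy⟩ z ⟨t, ht, hz⟩ hyz
      rcases hchain.total hs ht with hst | hst
      · exact (hc ht).2 y (hst hy) z hz hyz
      · exact (hc hs).2 y hy z (hst hz) hyz
  obtain ⟨⟨hW0, hWR⟩, hmax⟩ := hWm
  -- countable
  have hWc : W.Countable := by
    have hpd : W.PairwiseDisjoint fun y => Metric.ball y (‖y‖ / 2) := by
      intro y hy z hz hyz
      show Disjoint (Metric.ball y (‖y‖ / 2)) (Metric.ball z (‖z‖ / 2))
      refine Metric.ball_disjoint_ball ?_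
      rw [dist_eq_norm]
      have h0 : ⟪y, z⟫_ℝ = 0 := (hWR y hy z hz hyz).1 1 h.one
      have h1 : ‖y - z‖ ^ 2 = ‖y‖ ^ 2 + ‖z‖ ^ 2 := by
        rw [norm_sub_sq_real, h0]; ring
      refine le_of_sq_le_sq ?_ (norm_nonneg _)
      rw [h1]
      nlinarith [sq_nonneg (‖y‖ - ‖z‖), norm_nonneg y, norm_nonneg z]
    exact hpd.countable_of_isOpen (fun y _ => Metric.isOpen_ball)
      (fun y hy => ⟨y, Metric.mem_ball_self (by have := norm_pos_iff.2 (hW0 y hy); positivity)⟩)
  haveI : Countable W := hWc.to_subtype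
  haveI : Encodable W := Encodable.ofCountable W
  set t : W → ℝ := fun y => (1 / 2) ^ (Encodable.encode y) / ‖(y : H)‖ with ht
  have htpos : ∀ y, 0 < t y := by
    intro y
    have := norm_pos_iff.2 (hW0 y y.2)
    positivity
  have hsum : Summable fun y : W => t y • (y : H) := by
    refine Summable.of_norm ?_
    have h1 : ∀ y : W, ‖t y • (y : H)‖ = (1 / 2 : ℝ) ^ (Encodable.encode y) := by
      intro y
      have h2 := norm_pos_iff.2 (hW0 y y.2)
      rw [norm_smul, Real.norm_of_nonneg (htpos y).le, ht]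
      exact div_mul_cancel₀ _ h2.ne'
    simp_rw [h1]
    exact (summable_geometric_of_lt_one (by norm_num) (by norm_num)).comp_injective
      Encodable.encode_injective
  set x : H := ∑' y : W, t y • (y : H) with hx
  -- recover each y
  have hrec : ∀ {B C : Set (H →L[ℝ] H)}, Fac B C →
      (∀ y ∈ W, ∀ z ∈ W, y ≠ z → ∀ c ∈ C, ⟪c y, z⟫_ℝ = 0) → ∀ y ∈ W, y ∈ cyc B x := by
    intro B C h hCW y hy
    set P : H →L[ℝ] H := (cyc C y).starProjection with hP
    have hPB : P ∈ B := by
      rw [h.hB]
      exact proj_mem h.sC _ (cyc_inv h.symm.mul y)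
    have hPx : P x = t ⟨y, hy⟩ • y := by
      rw [hx, P.map_tsum hsum, tsum_eq_single ⟨y, hy⟩]
      · rw [map_smul]
        congr 1
        exact Submodule.starProjection_eq_self_iff.2 (mem_cyc h.symm.one y)
      · intro z hz
        rw [map_smul]
        have h1 : P (z : H) = 0 := by
          rw [hP, Submodule.starProjection_apply_eq_zero_iff]
          rw [Submodule.mem_orthogonal]
          intro k hk
          have h2 : cyc C y ≤ LinearMap.ker (innerSL ℝ (z : H) : H →ₗ[ℝ] ℝ) := by
            refine cyc_le (innerSL ℝ (z : H)).isClosed_ker fun c hc => ?_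
            show ⟪(z : H), c y⟫_ℝ = 0
            rw [real_inner_comm]
            refine hCW y hy z z.2 (fun hyz => hz (Subtype.ext hyz.symm)) c hc
          have h3 : ⟪(z : H), k⟫_ℝ = 0 := h2 hk
          rw [real_inner_comm]; exact h3
        rw [h1, smul_zero]
    have h1 := Submodule.smul_mem (cyc B x) (t ⟨y, hy⟩)⁻¹ (mem_cyc hPB x)
    rw [hPx, smul_smul, inv_mul_cancel₀ (htpos _).ne', one_smul] at h1
    exact h1
  have hrB : ∀ y ∈ W, y ∈ cyc B x := hrec h fun y hy z hz hyz => (hWR y hy z hz hyz).2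
  have hrC : ∀ y ∈ W, y ∈ cyc C x := hrec h.symm fun y hy z hz hyz => (hWR y hy z hz hyz).1
  have hmain : cyc B x = ⊤ ∨ cyc C x = ⊤ := by
    by_contra hcon
    push Not at hcon
    obtain ⟨hnB, hnC⟩ := hcon
    set q : H →L[ℝ] H := (cyc B x).starProjection with hq
    set p : H →L[ℝ] H := (cyc C x).starProjection with hp
    have hqC : q ∈ C := by rw [h.hC]; exact proj_mem h.sB _ (cyc_inv h.mul x)
    have hpB : p ∈ B := by rw [h.hB]; exact proj_mem h.sC _ (cyc_inv h.symm.mul x)
    have hq1 : (1 - q) ∈ C := by rw [h.hC] at hqC ⊢; exact cm_sub cm_one hqC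
    have hp1 : (1 - p) ∈ B := by rw [h.hB] at hpB ⊢; exact cm_sub cm_one hpB
    have hqn : (1 - q) ≠ 0 := by
      intro h0
      apply hnB
      rw [eq_top_iff]
      intro v _
      rw [← Submodule.starProjection_eq_self_iff]
      have := congrArg (fun T : H →L[ℝ] H => T v) (sub_eq_zero.1 h0)
      exact this.symm
    have hpn : (1 - p) ≠ 0 := by
      intro h0
      apply hnC
      rw [eq_top_iff]
      intro v _
      rw [← Submodule.starProjection_eq_self_iff]
      have := congrArg (fun T : H →L[ℝ] H => T v) (sub_eq_zero.1 h0)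
      exact this.symm
    have hne : (1 - q) * (1 - p) ≠ 0 := fun h0 => hqn (h.prime hp1 hq1 hpn h0)
    obtain ⟨v, hv⟩ : ∃ v, ((1 - q) * (1 - p)) v ≠ 0 := by
      by_contra hcon
      push Not at hcon
      exact hne (ContinuousLinearMap.ext hcon)
    set y0 : H := ((1 - q) * (1 - p)) v with hy0
    have hqq : q * q = q := Submodule.isIdempotentElem_starProjection (cyc B x)
    have hpp : p * p = p := Submodule.isIdempotentElem_starProjection (cyc C x)
    have hqy : q y0 = 0 := by
      have h1 : q * ((1 - q) * (1 - p)) = 0 := by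
        have h2 : q * ((1 - q) * (1 - p)) = (q - q * q) * (1 - p) := by noncomm_ring
        rw [h2, hqq, sub_self, zero_mul]
      exact congrArg (fun T : H →L[ℝ] H => T v) h1
    have hpy : p y0 = 0 := by
      have h1 : p * ((1 - q) * (1 - p)) = 0 := by
        have h2 : p * ((1 - p) * (1 - q)) = (p - p * p) * (1 - q) := by noncomm_ring
        rw [← h.comm hp1 hq1, h2, hpp, sub_self, zero_mul]
      exact congrArg (fun T : H →L[ℝ] H => T v) h1
    rw [hq, Submodule.starProjection_apply_eq_zero_iff, Submodule.mem_orthogonal] at hqy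
    rw [hp, Submodule.starProjection_apply_eq_zero_iff, Submodule.mem_orthogonal] at hpy
    have hRy : ∀ y ∈ W, R y y0 := by
      intro y hy
      refine ⟨fun b hb => hqy _ (cyc_inv h.mul x b hb _ (hrB y hy)), fun c hc => ?_⟩
      exact hpy _ (cyc_inv h.symm.mul x c hc _ (hrC y hy))
    have hy0W : y0 ∉ W := by
      intro hmem
      have := (hRy y0 hmem).1 1 h.one
      exact hv (inner_self_eq_zero.1 this)
    have hins : insert y0 W ∈ 𝒲 := by
      refine ⟨?_, ?_⟩
      · rintro y (rfl | hy)
        · exact hv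
        · exact hW0 y hy
      · rintro y (rfl | hy) z (rfl | hz) hyz
        · exact absurd rfl hyz
        · exact hRsymm _ _ (hRy z hz)
        · exact hRy y hy
        · exact hWR y hy z hz hyz
    exact hy0W (hmax hins (Set.subset_insert _ _) (Set.mem_insert _ _))
  refine ⟨x, ?_, hmain⟩
  intro hx0
  obtain ⟨v, hv⟩ := exists_ne (0 : H)
  have hbot : ∀ S : Set (H →L[ℝ] H), cyc S (0 : H) = ⊤ → False := by
    intro S hS
    have h1 : cyc S (0 : H) ≤ ⊥ := by
      refine cyc_le ?_ fun a _ => by simp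
      simp
    rw [hS] at h1
    exact hv ((Submodule.mem_bot ℝ).1 (h1 (Submodule.mem_top : v ∈ ⊤)))
  rw [hx0] at hmain
  rcases hmain with h1 | h1
  · exact hbot _ h1
  · exact hbot _ h1

end Pool.R988.BM
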