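import Pool.Agent.R988.BM.Up

/-!
# Unitarizable groups normalised by a transitive group of isometries
-/

set_option autoImplicit false

namespace Pool.R988.BM

open scoped InnerProductSpace Quaternion
open Pool.Agent.TH596.RO

variable {E : Type} [NormedAddCommGroup E] [NormedSpace ℝ E]
variable {H : Type} [NormedAddCommGroup H] [InnerProductSpace ℝ H]

/-- the operators `Φ S Φ⁻¹`, `S ∈ N` -/
def NH (Φ : E ≃L[ℝ] H) (N : Subgroup (E ≃L[ℝ] E)) : Set (H →L[ℝ] H) :=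
  {a | ∃ S ∈ N, a = up Φ (S : E →L[ℝ] E)}

lemma NH_CI (Φ : E ≃L[ℝ] H) {G : Subgroup (E ≃ₗᵢ[ℝ] E)} {N : Subgroup (E ≃L[ℝ] E)}
    (hN : ∀ T ∈ G, ∀ S ∈ N, T.toContinuousLinearEquiv * S * T.toContinuousLinearEquiv⁻¹ ∈ N) :
    CI Φ G (NH Φ N) := by
  rintro T hT b ⟨S, hS, rfl⟩
  refine ⟨_, hN T hT S hS, ?_⟩
  unfold cH
  rw [dn_up]
  rfl

lemma NH_star [CompleteSpace H] (Φ : E ≃L[ℝ] H) {N : Subgroup (E ≃L[ℝ] E)}
    (hiso : ∀ S ∈ N, ∀ x, ‖Φ (S x)‖ = ‖Φ x‖) {S : E ≃L[ℝ] E} (hS : S ∈ N) :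
    star (up Φ (S : E →L[ℝ] E)) = up Φ ((S⁻¹ : E ≃L[ℝ] E) : E →L[ℝ] E) := by
  set u := up Φ (S : E →L[ℝ] E) with hu
  set w := up Φ ((S⁻¹ : E ≃L[ℝ] E) : E →L[ℝ] E) with hw
  have h1 : ∀ v, ‖u v‖ = ‖v‖ := by
    intro v
    rw [hu, up_apply]
    have := hiso S hS (Φ.symm v)
    rw [Φ.apply_symm_apply] at this
    exact this
  have h2 : star u * u = 1 := (ContinuousLinearMap.norm_map_iff_adjoint_comp_self u).1 h1
  have h3 : u * w = 1 := by
    rw [hu, hw, ← up_mul]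
    have : ((S : E →L[ℝ] E) * ((S⁻¹ : E ≃L[ℝ] E) : E →L[ℝ] E)) = 1 := by
      ext x
      exact S.apply_symm_apply x
    rw [this, up_one]
  calc star u = star u * (u * w) := by rw [h3, mul_one]
    _ = w := by rw [← mul_assoc, h2, one_mul]

lemma NH_SC [CompleteSpace H] (Φ : E ≃L[ℝ] H) {N : Subgroup (E ≃L[ℝ] E)}
    (hiso : ∀ S ∈ N, ∀ x, ‖Φ (S x)‖ = ‖Φ x‖) : SC (NH Φ N) := by
  rintro a ⟨S, hS, rfl⟩
  exact ⟨S⁻¹, N.inv_mem hS, NH_star Φ hiso hS⟩

/-- first alternative: all isometries are multiples of isometries of `H` -/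
theorem case_hilb [CompleteSpace H] [Nontrivial H] (Φ : E ≃L[ℝ] H)
    {G : Subgroup (E ≃ₗᵢ[ℝ] E)} (htr : ∀ x y : E, ‖x‖ = 1 → ‖y‖ = 1 → ∃ T ∈ G, T x = y)
    {N : Subgroup (E ≃L[ℝ] E)}
    (hN : ∀ T ∈ G, ∀ S ∈ N, T.toContinuousLinearEquiv * S * T.toContinuousLinearEquiv⁻¹ ∈ N)
    (hiso : ∀ S ∈ N, ∀ x, ‖Φ (S x)‖ = ‖Φ x‖)
    (hnz : ∀ a ∈ (NH Φ N).centralizer, ∀ b ∈ (NH Φ N).centralizer, a * b = 0 → a = 0 ∨ b = 0) :
    ∀ x y : E, ‖x + y‖ * ‖x + y‖ + ‖x - y‖ * ‖x - y‖ = 2 * (‖x‖ * ‖x‖ + ‖y‖ * ‖y‖) := by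
  have hT1 : ∀ T ∈ G, ∀ x, ‖Φ (T x)‖ = ‖Φ x‖ := by
    intro T hT
    set t := tH Φ T with ht
    have hmem : star t * t ∈ (NH Φ N).centralizer := by
      rintro a ⟨S, hS, rfl⟩
      -- a' = T S T⁻¹
      have ha' := hN T hT S hS
      set S' := T.toContinuousLinearEquiv * S * T.toContinuousLinearEquiv⁻¹ with hS'
      have e1 : t * up Φ (S : E →L[ℝ] E) = up Φ (S' : E →L[ℝ] E) * t := by
        rw [ht]
        unfold tH
        rw [← up_mul, ← up_mul]
        congr 1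
        ext x
        show T (S x) = T (S (T.symm (T x)))
        rw [T.symm_apply_apply]
      have e1' : t * up Φ ((S⁻¹ : E ≃L[ℝ] E) : E →L[ℝ] E) = up Φ ((S'⁻¹ : E ≃L[ℝ] E) : E →L[ℝ] E) * t := by
        rw [ht]
        unfold tH
        rw [← up_mul, ← up_mul]
        congr 1
        have : S'⁻¹ = T.toContinuousLinearEquiv * S⁻¹ * T.toContinuousLinearEquiv⁻¹ := by
          rw [hS']; group
        rw [this]
        ext x
        show T ((S⁻¹ : E ≃L[ℝ] E) x) = T ((S⁻¹ : E ≃L[ℝ] E) (T.symm (T x)))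
        rw [T.symm_apply_apply]
      have e2 := congrArg star e1'
      rw [star_mul, star_mul, ← NH_star Φ hiso hS, ← NH_star Φ hiso ha', star_star, star_star] at e2
      rw [← mul_assoc, e2, mul_assoc, ← e1, mul_assoc]
    obtain ⟨r, hr⟩ := scalar_of_nzd hnz hmem (IsSelfAdjoint.star_mul_self t)
    have h1 : ∀ v, ‖t v‖ ^ 2 = r * ‖v‖ ^ 2 := by
      intro v
      have h2 : ⟪(star t * t) v, v⟫_ℝ = ‖t v‖ ^ 2 := by
        show ⟪(ContinuousLinearMap.adjoint t) (t v), v⟫_ℝ = _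
        rw [ContinuousLinearMap.adjoint_inner_left, real_inner_self_eq_norm_sq]
      rw [← h2, hr]
      show ⟪r • v, v⟫_ℝ = _
      rw [inner_smul_left, real_inner_self_eq_norm_sq]
      simp
    have hr0 : 0 ≤ r := by
      obtain ⟨v, hv⟩ := exists_ne (0 : H)
      have := h1 v
      have hp : 0 < ‖v‖ ^ 2 := by have := norm_pos_iff.2 hv; positivity
      by_contra hneg
      push Not at hneg
      nlinarith [sq_nonneg ‖t v‖]
    have h3 : ∀ v, ‖t v‖ = Real.sqrt r * ‖v‖ := by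
      intro v
      have h4 : ‖t v‖ ^ 2 = (Real.sqrt r * ‖v‖) ^ 2 := by
        rw [h1, mul_pow, Real.sq_sqrt hr0]
      exact (pow_left_inj₀ (norm_nonneg _) (by positivity) two_ne_zero).1 h4
    have h5 : ∀ x, ‖Φ (T x)‖ = Real.sqrt r * ‖Φ x‖ := by
      intro x
      have := h3 (Φ x)
      rw [ht, tH_apply, Φ.symm_apply_apply] at this
      exact this
    have h6 : ‖(Φ : E →L[ℝ] H).comp (T : E →L[ℝ] E)‖ = ‖(Φ : E →L[ℝ] H)‖ :=
      ContinuousLinearMap.opNorm_comp_linearIsometryEquiv _ T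
    have h7 : ‖(Φ : E →L[ℝ] H).comp (T : E →L[ℝ] E)‖ = Real.sqrt r * ‖(Φ : E →L[ℝ] H)‖ := by
      have h8 : ‖(Φ : E →L[ℝ] H).comp (T : E →L[ℝ] E)‖ = ‖Real.sqrt r • (Φ : E →L[ℝ] H)‖ := by
        apply ContinuousLinearMap.opNorm_ext
        intro x
        show ‖Φ (T x)‖ = ‖Real.sqrt r • Φ x‖
        rw [h5, norm_smul, Real.norm_of_nonneg (Real.sqrt_nonneg r)]
      rw [h8, norm_smul, Real.norm_of_nonneg (Real.sqrt_nonneg r)]
    have h9 : 0 < ‖(Φ : E →L[ℝ] H)‖ := by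
      rw [norm_pos_iff]
      intro h0
      obtain ⟨v, hv⟩ := exists_ne (0 : H)
      apply hv
      have := congrArg (fun S : E →L[ℝ] H => S (Φ.symm v)) h0
      simpa using this
    have h10 : Real.sqrt r = 1 := by
      rw [h6] at h7
      have : (Real.sqrt r - 1) * ‖(Φ : E →L[ℝ] H)‖ = 0 := by linarith
      rcases mul_eq_zero.1 this with h | h
      · linarith
      · exact absurd h h9.ne'
    intro x
    rw [h5, h10, one_mul]
  -- the norm is a multiple of the Hilbert norm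
  obtain ⟨k, hk0, hk⟩ : ∃ k : ℝ, 0 < k ∧ ∀ x : E, ‖Φ x‖ = k * ‖x‖ := by
    obtain ⟨v, hv⟩ := exists_ne (0 : H)
    have hv' : 0 < ‖Φ.symm v‖ := norm_pos_iff.2 (by simpa using hv)
    set e : E := ‖Φ.symm v‖⁻¹ • Φ.symm v with he
    have he1 : ‖e‖ = 1 := by rw [he, norm_smul, norm_inv, norm_norm, inv_mul_cancel₀ hv'.ne']
    refine ⟨‖Φ e‖, ?_, ?_⟩
    · rw [norm_pos_iff]
      intro h0
      have : e = 0 := by simpa using h0
      rw [this, norm_zero] at he1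
      exact zero_ne_one he1
    · intro x
      by_cases hx : x = 0
      · rw [hx]; simp
      have hx' : 0 < ‖x‖ := norm_pos_iff.2 hx
      obtain ⟨T, hT, hTe⟩ := htr e (‖x‖⁻¹ • x) he1
        (by rw [norm_smul, norm_inv, norm_norm, inv_mul_cancel₀ hx'.ne'])
      have h1 := hT1 T hT e
      rw [hTe, map_smul, norm_smul, norm_inv, norm_norm] at h1
      rw [← h1]
      field_simp
  intro x y
  have h1 := parallelogram_law_with_norm ℝ (Φ x) (Φ y)
  rw [← map_add, ← map_sub, hk, hk, hk, hk] at h1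
  have h2 : k * k * (‖x + y‖ * ‖x + y‖ + ‖x - y‖ * ‖x - y‖) =
      k * k * (2 * (‖x‖ * ‖x‖ + ‖y‖ * ‖y‖)) := by linarith
  exact mul_left_cancel₀ (by positivity) h2

/-- second alternative: the bicommutant is a division algebra -/
theorem case_div [CompleteSpace E] [CompleteSpace H] [Nontrivial H] (Φ : E ≃L[ℝ] H)
    {G : Subgroup (E ≃ₗᵢ[ℝ] E)} {C B : Set (H →L[ℝ] H)} (hB : CI Φ G B)
    (hBC : B = C.centralizer) (sB : SC B)
    (hnz : ∀ a ∈ B, ∀ b ∈ B, a * b = 0 → a = 0 ∨ b = 0) {a : E →L[ℝ] E} (ha : up Φ a ∈ B) :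
    a ∈ DD G := by
  have hsc : ∀ c ∈ B, IsSelfAdjoint c → ∃ r : ℝ, c = r • (1 : H →L[ℝ] H) := by
    intro c hc hs
    rw [hBC] at hnz hc
    exact scalar_of_nzd hnz hc hs
  let D : Subalgebra ℝ (E →L[ℝ] E) :=
    { carrier := {a | up Φ a ∈ B}
      mul_mem' := by
        intro a b ha hb
        show up Φ (a * b) ∈ B
        rw [up_mul, hBC]
        have ha' : up Φ a ∈ B := ha
        have hb' : up Φ b ∈ B := hb
        rw [hBC] at ha' hb'
        exact cm_mul ha' hb'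
      add_mem' := by
        intro a b ha hb
        show up Φ (a + b) ∈ B
        rw [up_add, hBC]
        have ha' : up Φ a ∈ B := ha
        have hb' : up Φ b ∈ B := hb
        rw [hBC] at ha' hb'
        exact cm_add ha' hb'
      algebraMap_mem' := by
        intro r
        show up Φ (algebraMap ℝ (E →L[ℝ] E) r) ∈ B
        rw [Algebra.algebraMap_eq_smul_one, up_smul, up_one, hBC]
        exact cm_smul r cm_one }
  haveI hHn : Nontrivial (H →L[ℝ] H) := inferInstance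
  haveI : NoZeroDivisors D := by
    refine ⟨fun {a b} hab => ?_⟩
    have h1 : up Φ (a : E →L[ℝ] E) * up Φ (b : E →L[ℝ] E) = 0 := by
      rw [← up_mul]
      have : (a : E →L[ℝ] E) * (b : E →L[ℝ] E) = 0 := congrArg Subtype.val hab
      rw [this, up_zero]
    rcases hnz _ a.2 _ b.2 h1 with h | h
    · left
      apply Subtype.ext
      exact up_inj Φ (by rw [h, ZeroMemClass.coe_zero, up_zero])
    · right
      apply Subtype.ext
      exact up_inj Φ (by rw [h, ZeroMemClass.coe_zero, up_zero])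
  haveI : Nontrivial D := by
    refine ⟨1, 0, fun h => ?_⟩
    have h1 : (1 : E →L[ℝ] E) = 0 := congrArg Subtype.val h
    have h2 := congrArg (up Φ) h1
    rw [up_one, up_zero] at h2
    exact one_ne_zero h2
  have hQ : Quad D := by
    intro a
    set b := up Φ (a : E →L[ℝ] E) with hb
    have hbB : b ∈ B := a.2
    have hbs : star b ∈ B := sB b hbB
    have h1 : b + star b ∈ B := by rw [hBC] at hbB hbs ⊢; exact cm_add hbB hbs
    obtain ⟨s, hs⟩ := hsc _ h1 (IsSelfAdjoint.add_star_self b)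
    set k : H →L[ℝ] H := b - (s / 2) • (1 : H →L[ℝ] H) with hk
    have hkB : k ∈ B := by rw [hBC] at hbB ⊢; exact cm_sub hbB (cm_smul _ cm_one)
    have hks : star k = -k := by
      have h2 : star b = s • (1 : H →L[ℝ] H) - b := by rw [← hs]; abel
      rw [hk, star_sub, h2, star_smul, star_one, star_trivial]
      have h3 : s • (1 : H →L[ℝ] H) = (s / 2) • (1 : H →L[ℝ] H) + (s / 2) • (1 : H →L[ℝ] H) := by
        rw [← add_smul]; congr 1; ring
      rw [h3]; abel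
    have hkk : star k * k ∈ B := by
      have hks' : star k ∈ B := sB k hkB
      rw [hBC] at hkB hks' ⊢
      exact cm_mul hks' hkB
    obtain ⟨r, hr⟩ := hsc _ hkk (IsSelfAdjoint.star_mul_self k)
    have hr0 : 0 ≤ r := by
      obtain ⟨v, hv⟩ := exists_ne (0 : H)
      have h2 : ⟪(star k * k) v, v⟫_ℝ = ‖k v‖ ^ 2 := by
        show ⟪(ContinuousLinearMap.adjoint k) (k v), v⟫_ℝ = _
        rw [ContinuousLinearMap.adjoint_inner_left, real_inner_self_eq_norm_sq]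
      rw [hr] at h2
      have h3 : ⟪(r • (1 : H →L[ℝ] H)) v, v⟫_ℝ = r * ‖v‖ ^ 2 := by
        show ⟪r • v, v⟫_ℝ = _
        rw [inner_smul_left, real_inner_self_eq_norm_sq]
        simp
      rw [h3] at h2
      have hp : 0 < ‖v‖ ^ 2 := by have := norm_pos_iff.2 hv; positivity
      by_contra hneg
      push Not at hneg
      nlinarith [sq_nonneg ‖k v‖]
    refine ⟨s / 2, Real.sqrt r, ?_⟩
    apply Subtype.ext
    apply up_inj Φ
    have h4 : ((((a - algebraMap ℝ D (s / 2)) * (a - algebraMap ℝ D (s / 2)) +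
        algebraMap ℝ D (Real.sqrt r * Real.sqrt r) : D)) : E →L[ℝ] E) =
        ((a : E →L[ℝ] E) - (s / 2) • (1 : E →L[ℝ] E)) * ((a : E →L[ℝ] E) - (s / 2) • (1 : E →L[ℝ] E)) +
          r • (1 : E →L[ℝ] E) := by
      rw [Real.mul_self_sqrt hr0]
      have e1 : ∀ q : ℝ, ((algebraMap ℝ D q : D) : E →L[ℝ] E) = q • (1 : E →L[ℝ] E) := by
        intro q
        rw [Algebra.algebraMap_eq_smul_one]
        rfl
      rw [← e1, ← e1]
      rfl
    rw [h4, ZeroMemClass.coe_zero, up_zero, up_add, up_mul, up_smul, up_one]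
    have h5 : up Φ ((a : E →L[ℝ] E) - (s / 2) • (1 : E →L[ℝ] E)) = k := by
      rw [hk, sub_eq_add_neg, ← neg_one_smul ℝ ((s / 2) • (1 : E →L[ℝ] E)), up_add, up_smul, up_smul, up_one,
        ← hb, neg_one_smul, ← sub_eq_add_neg]
    rw [h5]
    have h6 : k * k = -(r • (1 : H →L[ℝ] H)) := by
      rw [← hr, hks, neg_mul, neg_neg]
    rw [h6, neg_add_cancel]
  have hfd : FiniteDimensional ℝ D := by
    rcases frobenius hQ with ⟨⟨ψ⟩⟩ | ⟨⟨ψ⟩⟩ | ⟨⟨ψ⟩⟩
    · exact LinearEquiv.finiteDimensional ψ.symm.toLinearEquiv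
    · exact LinearEquiv.finiteDimensional ψ.symm.toLinearEquiv
    · exact LinearEquiv.finiteDimensional ψ.symm.toLinearEquiv
  refine le_DD (A := D) hfd ?_ ha
  intro T hT b hb
  have h1 := hB T hT _ hb
  unfold cH at h1
  rw [dn_up] at h1
  exact h1

/-- the dichotomy -/
theorem dichotomy [CompleteSpace E] [TopologicalSpace.SeparableSpace E] [Nontrivial E] (Φ : E ≃L[ℝ] H)
    {G : Subgroup (E ≃ₗᵢ[ℝ] E)} (htr : ∀ x y : E, ‖x‖ = 1 → ‖y‖ = 1 → ∃ T ∈ G, T x = y)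
    {N : Subgroup (E ≃L[ℝ] E)}
    (hN : ∀ T ∈ G, ∀ S ∈ N, T.toContinuousLinearEquiv * S * T.toContinuousLinearEquiv⁻¹ ∈ N)
    (hiso : ∀ S ∈ N, ∀ x, ‖Φ (S x)‖ = ‖Φ x‖) :
    (∀ x y : E, ‖x + y‖ * ‖x + y‖ + ‖x - y‖ * ‖x - y‖ = 2 * (‖x‖ * ‖x‖ + ‖y‖ * ‖y‖)) ∨
      ∀ S ∈ N, (S : E →L[ℝ] E) ∈ DD G := by
  haveI : CompleteSpace H := (completeSpace_congr (e := Φ.toEquiv) Φ.isUniformEmbedding).1 inferInstance
  haveI : Nontrivial H := Φ.symm.toEquiv.nontrivial
  haveI : TopologicalSpace.SeparableSpace H := Φ.surjective.denseRange.separableSpace Φ.continuous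
  have sN := NH_SC Φ hiso
  have cN := NH_CI Φ hN
  set C : Set (H →L[ℝ] H) := (NH Φ N).centralizer with hC
  set B : Set (H →L[ℝ] H) := C.centralizer with hB
  have sC : SC C := cm_star sN
  have sB : SC B := cm_star sC
  have cC : CI Φ G C := cN.cm
  have cB : CI Φ G B := cC.cm
  have hCB : C = B.centralizer := by
    rw [hB, hC, Set.centralizer_centralizer_centralizer]
  have hcomm : ∀ b ∈ B, ∀ c ∈ C, b * c = c * b := fun b hb c hc => (hb c hc).symm
  have hF : Fac B C := ⟨hB, hCB, sB, sC, fun z h1 h2 h3 =>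
    center_triv Φ G htr cB hcomm h1 h2 h3⟩
  obtain ⟨x, hx0, hx⟩ := hF.exists_cyclic
  rcases hx with hx | hx
  · left
    have hall : ∀ y : H, y ≠ 0 → cyc B y = ⊤ := fun y hy => cyc_inv_all Φ G htr cB hx0 hy hx
    exact case_hilb Φ htr hN hiso (nzd_of_cyc hF hall)
  · right
    have hall : ∀ y : H, y ≠ 0 → cyc C y = ⊤ := fun y hy => cyc_inv_all Φ G htr cC hx0 hy hx
    have hnz := nzd_of_cyc hF.symm hall
    intro S hS
    refine case_div Φ cB hB sB hnz ?_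
    intro c hc
    exact (hc _ ⟨S, hS, rfl⟩).symm

end Pool.R988.BM
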