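import Mathlib

/-!
# Fuglede-Putnam theorem on real Hilbert spaces
-/

set_option autoImplicit false

namespace Pool.R988.BM

open scoped InnerProductSpace

/-- complexification of a real vector space -/
def Cx (H : Type) : Type := H × H

variable {H : Type} [NormedAddCommGroup H] [InnerProductSpace ℝ H]

instance : AddCommGroup (Cx H) := inferInstanceAs (AddCommGroup (H × H))

noncomputable instance : SMul ℂ (Cx H) :=
  ⟨fun z p => (z.re • p.1 - z.im • p.2, z.re • p.2 + z.im • p.1)⟩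

lemma cx_ext {p q : Cx H} (h1 : p.1 = q.1) (h2 : p.2 = q.2) : p = q := Prod.ext h1 h2

lemma cx_add1 (p q : Cx H) : (p + q).1 = p.1 + q.1 := rfl
lemma cx_add2 (p q : Cx H) : (p + q).2 = p.2 + q.2 := rfl
lemma cx_zero1 : (0 : Cx H).1 = 0 := rfl
lemma cx_zero2 : (0 : Cx H).2 = 0 := rfl
lemma cx_smul1 (z : ℂ) (p : Cx H) : (z • p).1 = z.re • p.1 - z.im • p.2 := rfl
lemma cx_smul2 (z : ℂ) (p : Cx H) : (z • p).2 = z.re • p.2 + z.im • p.1 := rfl

noncomputable instance : Module ℂ (Cx H) where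
  one_smul p := cx_ext (by rw [cx_smul1]; simp) (by rw [cx_smul2]; simp)
  mul_smul z w p := cx_ext
    (by rw [cx_smul1, cx_smul1, cx_smul1, cx_smul2, Complex.mul_re, Complex.mul_im]; module)
    (by rw [cx_smul2, cx_smul2, cx_smul2, cx_smul1, Complex.mul_re, Complex.mul_im]; module)
  smul_zero z := cx_ext (by rw [cx_smul1, cx_zero1, cx_zero2]; simp)
    (by rw [cx_smul2, cx_zero1, cx_zero2]; simp)
  smul_add z p q := cx_ext
    (by rw [cx_smul1, cx_add1, cx_add1, cx_add2, cx_smul1, cx_smul1]; module)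
    (by rw [cx_smul2, cx_add2, cx_add1, cx_add2, cx_smul2, cx_smul2]; module)
  add_smul z w p := cx_ext
    (by rw [cx_smul1, cx_add1, cx_smul1, cx_smul1, Complex.add_re, Complex.add_im]; module)
    (by rw [cx_smul2, cx_add2, cx_smul2, cx_smul2, Complex.add_re, Complex.add_im]; module)
  zero_smul p := cx_ext (by rw [cx_smul1, cx_zero1]; simp) (by rw [cx_smul2, cx_zero2]; simp)

noncomputable def cxCore : InnerProductSpace.Core ℂ (Cx H) where
  inner p q := ⟨⟪p.1, q.1⟫_ℝ + ⟪p.2, q.2⟫_ℝ, ⟪p.1, q.2⟫_ℝ - ⟪p.2, q.1⟫_ℝ⟩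
  conj_inner_symm p q := by
    apply Complex.ext
    · show ⟪q.1, p.1⟫_ℝ + ⟪q.2, p.2⟫_ℝ = ⟪p.1, q.1⟫_ℝ + ⟪p.2, q.2⟫_ℝ
      rw [real_inner_comm q.1, real_inner_comm q.2]
    · show -(⟪q.1, p.2⟫_ℝ - ⟪q.2, p.1⟫_ℝ) = ⟪p.1, q.2⟫_ℝ - ⟪p.2, q.1⟫_ℝ
      rw [real_inner_comm q.1, real_inner_comm q.2]; ring
  re_inner_nonneg p := by
    show 0 ≤ ⟪p.1, p.1⟫_ℝ + ⟪p.2, p.2⟫_ℝ
    exact add_nonneg real_inner_self_nonneg real_inner_self_nonneg
  add_left p q r := by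
    apply Complex.ext
    · show ⟪p.1 + q.1, r.1⟫_ℝ + ⟪p.2 + q.2, r.2⟫_ℝ =
        (⟪p.1, r.1⟫_ℝ + ⟪p.2, r.2⟫_ℝ) + (⟪q.1, r.1⟫_ℝ + ⟪q.2, r.2⟫_ℝ)
      rw [inner_add_left, inner_add_left]; ring
    · show ⟪p.1 + q.1, r.2⟫_ℝ - ⟪p.2 + q.2, r.1⟫_ℝ =
        (⟪p.1, r.2⟫_ℝ - ⟪p.2, r.1⟫_ℝ) + (⟪q.1, r.2⟫_ℝ - ⟪q.2, r.1⟫_ℝ)
      rw [inner_add_left, inner_add_left]; ring
  smul_left p q z := by
    apply Complex.ext
    · show ⟪z.re • p.1 - z.im • p.2, q.1⟫_ℝ + ⟪z.re • p.2 + z.im • p.1, q.2⟫_ℝ =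
        z.re * (⟪p.1, q.1⟫_ℝ + ⟪p.2, q.2⟫_ℝ) - (-z.im) * (⟪p.1, q.2⟫_ℝ - ⟪p.2, q.1⟫_ℝ)
      rw [inner_sub_left, inner_add_left, real_inner_smul_left, real_inner_smul_left,
        real_inner_smul_left, real_inner_smul_left]; ring
    · show ⟪z.re • p.1 - z.im • p.2, q.2⟫_ℝ - ⟪z.re • p.2 + z.im • p.1, q.1⟫_ℝ =
        z.re * (⟪p.1, q.2⟫_ℝ - ⟪p.2, q.1⟫_ℝ) + (-z.im) * (⟪p.1, q.1⟫_ℝ + ⟪p.2, q.2⟫_ℝ)
      rw [inner_sub_left, inner_add_left, real_inner_smul_left, real_inner_smul_left,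
        real_inner_smul_left, real_inner_smul_left]; ring
  definite p hp := by
    have h1 : ⟪p.1, p.1⟫_ℝ + ⟪p.2, p.2⟫_ℝ = 0 := congrArg Complex.re hp
    have h2 : ⟪p.1, p.1⟫_ℝ = 0 :=
      le_antisymm (by have := real_inner_self_nonneg (x := p.2); linarith) real_inner_self_nonneg
    have h3 : ⟪p.2, p.2⟫_ℝ = 0 :=
      le_antisymm (by have := real_inner_self_nonneg (x := p.1); linarith) real_inner_self_nonneg
    exact cx_ext (inner_self_eq_zero.1 h2) (inner_self_eq_zero.1 h3)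

noncomputable instance : NormedAddCommGroup (Cx H) := (cxCore (H := H)).toNormedAddCommGroup

noncomputable instance : InnerProductSpace ℂ (Cx H) := InnerProductSpace.ofCore (cxCore (H := H)).toCore

lemma cx_inner_re (p q : Cx H) : (⟪p, q⟫_ℂ).re = ⟪p.1, q.1⟫_ℝ + ⟪p.2, q.2⟫_ℝ := rfl
lemma cx_inner_im (p q : Cx H) : (⟪p, q⟫_ℂ).im = ⟪p.1, q.2⟫_ℝ - ⟪p.2, q.1⟫_ℝ := rfl

lemma cx_norm_sq (p : Cx H) : ‖p‖ ^ 2 = ‖p.1‖ ^ 2 + ‖p.2‖ ^ 2 := by
  have h1 := inner_self_eq_norm_sq (𝕜 := ℂ) p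
  rw [← h1]
  show (⟪p, p⟫_ℂ).re = _
  rw [cx_inner_re, real_inner_self_eq_norm_sq, real_inner_self_eq_norm_sq]

/-- identification of the complexification with `H ⊕₂ H` -/
noncomputable def cxe : Cx H ≃+ WithLp 2 (H × H) where
  toFun p := WithLp.toLp 2 (p.1, p.2)
  invFun p := ((p.fst, p.snd) : H × H)
  left_inv p := rfl
  right_inv p := rfl
  map_add' p q := rfl

lemma cxe_norm (p : Cx H) : ‖cxe p‖ = ‖p‖ := by
  have h1 : ‖cxe p‖ ^ 2 = ‖p‖ ^ 2 := by
    rw [cx_norm_sq, WithLp.prod_norm_sq_eq_of_L2]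
    rfl
  exact (pow_left_inj₀ (norm_nonneg _) (norm_nonneg _) two_ne_zero).1 h1

instance [CompleteSpace H] : CompleteSpace (Cx H) := by
  have hiso : Isometry (cxe (H := H)) := AddMonoidHomClass.isometry_of_norm _ cxe_norm
  have hu : IsUniformEmbedding (cxe (H := H)).toEquiv := hiso.isUniformEmbedding
  exact (completeSpace_congr (e := (cxe (H := H)).toEquiv) hu).2 inferInstance

/-- pairs -/
def mkc (x y : H) : Cx H := (x, y)

/-- extension of an operator to the complexification -/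
noncomputable def cxo (a : H →L[ℝ] H) : Cx H →L[ℂ] Cx H :=
  LinearMap.mkContinuous
    { toFun := fun p => mkc (a p.1) (a p.2)
      map_add' := fun p q => cx_ext (map_add a _ _) (map_add a _ _)
      map_smul' := fun z p => cx_ext
        (by
          show a (z.re • p.1 - z.im • p.2) = z.re • a p.1 - z.im • a p.2
          rw [map_sub, map_smul, map_smul])
        (by
          show a (z.re • p.2 + z.im • p.1) = z.re • a p.2 + z.im • a p.1
          rw [map_add, map_smul, map_smul]) } ‖a‖ (by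
    intro p
    have h1 : ‖mkc (a p.1) (a p.2)‖ ^ 2 ≤ (‖a‖ * ‖p‖) ^ 2 := by
      rw [cx_norm_sq, mul_pow, cx_norm_sq, mul_add, ← mul_pow, ← mul_pow]
      exact add_le_add (pow_le_pow_left₀ (norm_nonneg _) (a.le_opNorm _) 2)
        (pow_le_pow_left₀ (norm_nonneg _) (a.le_opNorm _) 2)
    exact (pow_le_pow_iff_left₀ (norm_nonneg _) (by positivity) two_ne_zero).1 h1)

lemma cxo1 (a : H →L[ℝ] H) (p : Cx H) : (cxo a p).1 = a p.1 := rfl
lemma cxo2 (a : H →L[ℝ] H) (p : Cx H) : (cxo a p).2 = a p.2 := rfl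

lemma cxo_mul (a b : H →L[ℝ] H) : cxo (a * b) = cxo a * cxo b := by
  ext p
  exact cx_ext rfl rfl

lemma cxo_inj {a b : H →L[ℝ] H} (h : cxo a = cxo b) : a = b := by
  ext x
  have h1 := congrArg (fun S : Cx H →L[ℂ] Cx H => (S (mkc x 0)).1) h
  exact h1

lemma cxo_star [CompleteSpace H] (a : H →L[ℝ] H) : cxo (star a) = star (cxo a) := by
  rw [ContinuousLinearMap.star_eq_adjoint, ContinuousLinearMap.star_eq_adjoint,
    ContinuousLinearMap.eq_adjoint_iff]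
  intro p q
  apply Complex.ext
  · rw [cx_inner_re, cx_inner_re, cxo1, cxo2, cxo1, cxo2, ContinuousLinearMap.adjoint_inner_left,
      ContinuousLinearMap.adjoint_inner_left]
  · rw [cx_inner_im, cx_inner_im, cxo1, cxo2, cxo1, cxo2, ContinuousLinearMap.adjoint_inner_left,
      ContinuousLinearMap.adjoint_inner_left]

/-- Fuglede-Putnam theorem for a real Hilbert space -/
theorem fuglede [CompleteSpace H] {a b t : H →L[ℝ] H} (ha : IsStarNormal a) (hb : IsStarNormal b)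
    (h : t * a = b * t) : t * star a = star b * t := by
  apply cxo_inj
  rw [cxo_mul, cxo_mul, cxo_star, cxo_star]
  have hn : ∀ c : H →L[ℝ] H, IsStarNormal c → IsStarNormal (cxo c) := by
    intro c hc
    refine ⟨?_⟩
    show star (cxo c) * cxo c = cxo c * star (cxo c)
    rw [← cxo_star, ← cxo_mul, ← cxo_mul]
    congr 1
    exact hc.star_comm_self
  have h1 : SemiconjBy (cxo t) (cxo a) (cxo b) := by
    show cxo t * cxo a = cxo b * cxo t
    rw [← cxo_mul, ← cxo_mul, h]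
  exact h1.star_right (hn a ha) (hn b hb)

end Pool.R988.BM
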