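import Pool.Agent.R988.BM.Fin
import Pool.Agent.R988.BM.Fug

/-!
# Self-adjoint sets and normal operators whose conjugates are normal
-/

set_option autoImplicit false

namespace Pool.R988.BM

open scoped InnerProductSpace Quaternion
open Pool.Agent.TH596.RO

variable {E : Type} [NormedAddCommGroup E] [NormedSpace ℝ E]
variable {H : Type} [NormedAddCommGroup H] [InnerProductSpace ℝ H]

/-- if all `T* T` lie in a commutant without zero divisors, the norm is Hilbertian -/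
theorem hilb_of_mem [CompleteSpace H] [Nontrivial H] (Φ : E ≃L[ℝ] H)
    {G : Subgroup (E ≃ₗᵢ[ℝ] E)} (htr : ∀ x y : E, ‖x‖ = 1 → ‖y‖ = 1 → ∃ T ∈ G, T x = y)
    {S : Set (H →L[ℝ] H)} (hmem : ∀ T ∈ G, star (tH Φ T) * tH Φ T ∈ S.centralizer)
    (hnz : ∀ a ∈ S.centralizer, ∀ b ∈ S.centralizer, a * b = 0 → a = 0 ∨ b = 0) :
    ∀ x y : E, ‖x + y‖ * ‖x + y‖ + ‖x - y‖ * ‖x - y‖ = 2 * (‖x‖ * ‖x‖ + ‖y‖ * ‖y‖) := by
  have hT1 : ∀ T ∈ G, ∀ x, ‖Φ (T x)‖ = ‖Φ x‖ := by
    intro T hT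
    set t := tH Φ T with ht
    obtain ⟨r, hr⟩ := scalar_of_nzd hnz (hmem T hT) (IsSelfAdjoint.star_mul_self t)
    have h1 : ∀ v, ‖t v‖ ^ 2 = r * ‖v‖ ^ 2 := by
      intro v
      have h2 : ⟪(star t * t) v, v⟫_ℝ = ‖t v‖ ^ 2 := by
        show ⟪(ContinuousLinearMap.adjoint t) (t v), v⟫_ℝ = _
        rw [ContinuousLinearMap.adjoint_inner_left, real_inner_self_eq_norm_sq]
      rw [← h2, hr]
      show ⟪r • v, v⟫_ℝ = _
      rw [inner_smul_left, real_inner_self_eq_norm_sq]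
      simp
    have hr0 : 0 ≤ r := by
      obtain ⟨v, hv⟩ := exists_ne (0 : H)
      have := h1 v
      have hp : 0 < ‖v‖ ^ 2 := by have := norm_pos_iff.2 hv; positivity
      by_contra hneg
      push Not at hneg
      nlinarith [sq_nonneg ‖t v‖]
    have h3 : ∀ v, ‖t v‖ = Real.sqrt r * ‖v‖ := by
      intro v
      have h4 : ‖t v‖ ^ 2 = (Real.sqrt r * ‖v‖) ^ 2 := by
        rw [h1, mul_pow, Real.sq_sqrt hr0]
      exact (pow_left_inj₀ (norm_nonneg _) (by positivity) two_ne_zero).1 h4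
    have h5 : ∀ x, ‖Φ (T x)‖ = Real.sqrt r * ‖Φ x‖ := by
      intro x
      have := h3 (Φ x)
      rw [ht, tH_apply, Φ.symm_apply_apply] at this
      exact this
    have h6 : ‖(Φ : E →L[ℝ] H).comp (T : E →L[ℝ] E)‖ = ‖(Φ : E →L[ℝ] H)‖ :=
      ContinuousLinearMap.opNorm_comp_linearIsometryEquiv _ T
    have h7 : ‖(Φ : E →L[ℝ] H).comp (T : E →L[ℝ] E)‖ = Real.sqrt r * ‖(Φ : E →L[ℝ] H)‖ := by
      have h8 : ‖(Φ : E →L[ℝ] H).comp (T : E →L[ℝ] E)‖ = ‖Real.sqrt r • (Φ : E →L[ℝ] H)‖ := by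
        apply ContinuousLinearMap.opNorm_ext
        intro x
        show ‖Φ (T x)‖ = ‖Real.sqrt r • Φ x‖
        rw [h5, norm_smul, Real.norm_of_nonneg (Real.sqrt_nonneg r)]
      rw [h8, norm_smul, Real.norm_of_nonneg (Real.sqrt_nonneg r)]
    have h9 : 0 < ‖(Φ : E →L[ℝ] H)‖ := by
      rw [norm_pos_iff]
      intro h0
      obtain ⟨v, hv⟩ := exists_ne (0 : H)
      apply hv
      have := congrArg (fun S : E →L[ℝ] H => S (Φ.symm v)) h0
      simpa using this
    have h10 : Real.sqrt r = 1 := by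
      rw [h6] at h7
      have : (Real.sqrt r - 1) * ‖(Φ : E →L[ℝ] H)‖ = 0 := by linarith
      rcases mul_eq_zero.1 this with h | h
      · linarith
      · exact absurd h h9.ne'
    intro x
    rw [h5, h10, one_mul]
  obtain ⟨k, hk0, hk⟩ : ∃ k : ℝ, 0 < k ∧ ∀ x : E, ‖Φ x‖ = k * ‖x‖ := by
    obtain ⟨v, hv⟩ := exists_ne (0 : H)
    have hv' : 0 < ‖Φ.symm v‖ := norm_pos_iff.2 (by simpa using hv)
    set e : E := ‖Φ.symm v‖⁻¹ • Φ.symm v with he
    have he1 : ‖e‖ = 1 := by rw [he, norm_smul, norm_inv, norm_norm, inv_mul_cancel₀ hv'.ne']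
    refine ⟨‖Φ e‖, ?_, ?_⟩
    · rw [norm_pos_iff]
      intro h0
      have : e = 0 := by simpa using h0
      rw [this, norm_zero] at he1
      exact zero_ne_one he1
    · intro x
      by_cases hx : x = 0
      · rw [hx]; simp
      have hx' : 0 < ‖x‖ := norm_pos_iff.2 hx
      obtain ⟨T, hT, hTe⟩ := htr e (‖x‖⁻¹ • x) he1
        (by rw [norm_smul, norm_inv, norm_norm, inv_mul_cancel₀ hx'.ne'])
      have h1 := hT1 T hT e
      rw [hTe, map_smul, norm_smul, norm_inv, norm_norm] at h1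
      rw [← h1]
      field_simp
  intro x y
  have h1 := parallelogram_law_with_norm ℝ (Φ x) (Φ y)
  rw [← map_add, ← map_sub, hk, hk, hk, hk] at h1
  have h2 : k * k * (‖x + y‖ * ‖x + y‖ + ‖x - y‖ * ‖x - y‖) =
      k * k * (2 * (‖x‖ * ‖x‖ + ‖y‖ * ‖y‖)) := by linarith
  exact mul_left_cancel₀ (by positivity) h2

/-- the dichotomy for self-adjoint invariant sets of operators -/
theorem gen_dich [CompleteSpace E] [TopologicalSpace.SeparableSpace E] [CompleteSpace H]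
    [Nontrivial H] (Φ : E ≃L[ℝ] H)
    {G : Subgroup (E ≃ₗᵢ[ℝ] E)} (htr : ∀ x y : E, ‖x‖ = 1 → ‖y‖ = 1 → ∃ T ∈ G, T x = y)
    {S : Set (H →L[ℝ] H)} (cS : CI Φ G S) (sS : SC S) :
    (∀ a ∈ S.centralizer, ∀ b ∈ S.centralizer, a * b = 0 → a = 0 ∨ b = 0) ∨
      ∀ a ∈ S.centralizer.centralizer, ∀ b ∈ S.centralizer.centralizer,
        a * b = 0 → a = 0 ∨ b = 0 := by
  haveI : TopologicalSpace.SeparableSpace H := Φ.surjective.denseRange.separableSpace Φ.continuous
  set C : Set (H →L[ℝ] H) := S.centralizer with hC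
  set B : Set (H →L[ℝ] H) := C.centralizer with hB
  have sC : SC C := cm_star sS
  have sB : SC B := cm_star sC
  have cC : CI Φ G C := cS.cm
  have cB : CI Φ G B := cC.cm
  have hCB : C = B.centralizer := by
    rw [hB, hC, Set.centralizer_centralizer_centralizer]
  have hcomm : ∀ b ∈ B, ∀ c ∈ C, b * c = c * b := fun b hb c hc => (hb c hc).symm
  have hF : Fac B C := ⟨hB, hCB, sB, sC, fun z h1 h2 h3 =>
    center_triv Φ G htr cB hcomm h1 h2 h3⟩
  obtain ⟨x, hx0, hx⟩ := hF.exists_cyclic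
  rcases hx with hx | hx
  · left
    have hall : ∀ y : H, y ≠ 0 → cyc B y = ⊤ := fun y hy => cyc_inv_all Φ G htr cB hx0 hy hx
    exact nzd_of_cyc hF hall
  · right
    have hall : ∀ y : H, y ≠ 0 → cyc C y = ⊤ := fun y hy => cyc_inv_all Φ G htr cC hx0 hy hx
    exact nzd_of_cyc hF.symm hall

lemma up_sub' (Φ : E ≃L[ℝ] H) (a b : E →L[ℝ] E) : up Φ (a - b) = up Φ a - up Φ b := by
  ext v; exact map_sub Φ _ _

lemma tH_cj (Φ : E ≃L[ℝ] H) (T : E ≃ₗᵢ[ℝ] E) (a : E →L[ℝ] E) :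
    tH Φ T * up Φ a = up Φ (cj T a) * tH Φ T := by
  ext v
  show Φ (T (Φ.symm (Φ (a (Φ.symm v))))) = Φ (T (a (T.symm (Φ.symm (Φ (T (Φ.symm v)))))))
  rw [Φ.symm_apply_apply, Φ.symm_apply_apply, T.symm_apply_apply]

lemma cH_star (Φ : E ≃L[ℝ] H) [CompleteSpace H] {T : E ≃ₗᵢ[ℝ] E} {a : E →L[ℝ] E}
    (h1 : IsStarNormal (up Φ a)) (h2 : IsStarNormal (up Φ (cj T a))) :
    cH Φ T (star (up Φ a)) = star (up Φ (cj T a)) := by
  have h3 := fuglede h1 h2 (tH_cj Φ T a)
  ext v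
  have h4 := cH_apply_tH Φ T (star (up Φ a)) (Φ (T.symm (Φ.symm v)))
  rw [tH_surj] at h4
  rw [h4]
  have h5 := congrArg (fun S : H →L[ℝ] H => S (Φ (T.symm (Φ.symm v)))) h3
  have h6 : tH Φ T (star (up Φ a) (Φ (T.symm (Φ.symm v)))) =
    star (up Φ (cj T a)) (tH Φ T (Φ (T.symm (Φ.symm v)))) := h5
  rw [h6, tH_surj]

/-- all conjugates of `a` normal: then `a` lies in the algebra or the norm is Hilbertian -/
theorem normal_case [CompleteSpace E] [TopologicalSpace.SeparableSpace E] [CompleteSpace H]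
    [Nontrivial H] (Φ : E ≃L[ℝ] H)
    {G : Subgroup (E ≃ₗᵢ[ℝ] E)} (htr : ∀ x y : E, ‖x‖ = 1 → ‖y‖ = 1 → ∃ T ∈ G, T x = y)
    {a : E →L[ℝ] E} (ha : ∀ T ∈ G, IsStarNormal (up Φ (cj T a))) :
    (∀ x y : E, ‖x + y‖ * ‖x + y‖ + ‖x - y‖ * ‖x - y‖ = 2 * (‖x‖ * ‖x‖ + ‖y‖ * ‖y‖)) ∨
      a ∈ DD G := by
  set S : Set (H →L[ℝ] H) := {c | ∃ T ∈ G, c = up Φ (cj T a) ∨ c = star (up Φ (cj T a))} with hS
  have sS : SC S := by
    rintro c ⟨T, hT, rfl | rfl⟩
    · exact ⟨T, hT, Or.inr rfl⟩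
    · exact ⟨T, hT, Or.inl (star_star _)⟩
  have cS : CI Φ G S := by
    rintro U hU c ⟨T, hT, rfl | rfl⟩
    · refine ⟨U * T, G.mul_mem hU hT, Or.inl ?_⟩
      rw [cj_mul]
      unfold cH
      rw [dn_up]
    · refine ⟨U * T, G.mul_mem hU hT, Or.inr ?_⟩
      rw [cj_mul]
      refine cH_star Φ (ha T hT) ?_
      rw [← cj_mul]
      exact ha _ (G.mul_mem hU hT)
  rcases gen_dich Φ htr cS sS with hnz | hnz
  · left
    refine hilb_of_mem Φ htr (S := S) ?_ hnz
    rintro U hU c ⟨T, hT, hc⟩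
    have e1 := tH_cj Φ U (cj T a)
    have n2 : IsStarNormal (up Φ (cj U (cj T a))) := by
      rw [← cj_mul]; exact ha _ (G.mul_mem hU hT)
    have e2 := fuglede (ha T hT) n2 e1
    set t := tH Φ U with ht
    set a1 := up Φ (cj T a) with ha1
    set b1 := up Φ (cj U (cj T a)) with hb1
    rcases hc with rfl | rfl
    · have e3 := congrArg star e2
      rw [star_mul, star_mul, star_star, star_star] at e3
      rw [mul_assoc, e1, ← mul_assoc, ← mul_assoc, e3]
    · have e3 := congrArg star e1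
      rw [star_mul, star_mul] at e3
      rw [mul_assoc, e2, ← mul_assoc, ← mul_assoc, e3]
  · right
    refine case_div (C := S.centralizer) Φ cS.cm.cm rfl (cm_star (cm_star sS)) hnz ?_
    intro c hc
    exact (hc _ ⟨1, G.one_mem, Or.inl (by rw [cj_one])⟩).symm

/-- a self-adjoint invariant set is contained in the algebra, or its commutant is and it has no
invariant closed subspaces -/
theorem sa_case [CompleteSpace E] [TopologicalSpace.SeparableSpace E] [CompleteSpace H]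
    [Nontrivial H] (Φ : E ≃L[ℝ] H)
    {G : Subgroup (E ≃ₗᵢ[ℝ] E)} (htr : ∀ x y : E, ‖x‖ = 1 → ‖y‖ = 1 → ∃ T ∈ G, T x = y)
    (hmul : ∀ a ∈ DD G, ∀ x, ‖a x‖ = ‖a‖ * ‖x‖)
    {A : Set (E →L[ℝ] E)} (cA : ∀ T ∈ G, ∀ a ∈ A, cj T a ∈ A)
    (sA : ∀ a ∈ A, ∃ b ∈ A, ∀ x y, ⟪Φ (a x), Φ y⟫_ℝ = ⟪Φ x, Φ (b y)⟫_ℝ) :
    A ⊆ DD G ∨ ((∀ c : E →L[ℝ] E, (∀ a ∈ A, ∀ x, c (a x) = a (c x)) → c ∈ DD G) ∧
      ∀ W : Submodule ℝ E, IsClosed (W : Set E) → (∀ a ∈ A, ∀ x ∈ W, a x ∈ W) → W = ⊥ ∨ W = ⊤) := by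
  set S : Set (H →L[ℝ] H) := {c | ∃ a ∈ A, c = up Φ a} with hS
  have sS : SC S := by
    rintro c ⟨a, ha, rfl⟩
    obtain ⟨b, hb, hab⟩ := sA a ha
    refine ⟨b, hb, ?_⟩
    symm
    rw [ContinuousLinearMap.star_eq_adjoint, ContinuousLinearMap.eq_adjoint_iff]
    intro v w
    have h1 := hab (Φ.symm w) (Φ.symm v)
    rw [Φ.apply_symm_apply, Φ.apply_symm_apply] at h1
    rw [up_apply, up_apply, real_inner_comm, ← h1, real_inner_comm]
  have cS : CI Φ G S := by
    rintro U hU c ⟨a, ha, rfl⟩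
    refine ⟨cj U a, cA U hU a ha, ?_⟩
    unfold cH
    rw [dn_up]
  rcases gen_dich Φ htr cS sS with hnz | hnz
  · right
    have hcm : ∀ c : E →L[ℝ] E, (∀ a ∈ A, ∀ x, c (a x) = a (c x)) → c ∈ DD G := by
      intro c hc
      refine case_div (C := S.centralizer.centralizer) Φ cS.cm
        (Set.centralizer_centralizer_centralizer S).symm (cm_star sS) hnz ?_
      rintro d ⟨a, ha, rfl⟩
      rw [← up_mul, ← up_mul]
      congr 1
      ext x
      exact (hc a ha x).symm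
    refine ⟨hcm, fun W hW hWA => ?_⟩
    -- the orthogonal projection
    set W' : Submodule ℝ H := W.map ((Φ : E →L[ℝ] H) : E →ₗ[ℝ] H) with hW'
    have hW'c : IsClosed (W' : Set H) := by
      have : (W' : Set H) = Φ '' (W : Set E) := rfl
      rw [this]
      exact Φ.toHomeomorph.isClosedMap _ hW
    haveI : CompleteSpace W' := hW'c.completeSpace_coe
    have hp : W'.starProjection ∈ S.centralizer := by
      refine proj_mem sS W' ?_
      rintro c ⟨a, ha, rfl⟩ k ⟨x, hx, rfl⟩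
      refine ⟨a x, hWA a ha x hx, ?_⟩
      show Φ (a x) = Φ (a (Φ.symm (Φ x)))
      rw [Φ.symm_apply_apply]
    set p : E →L[ℝ] E := dn Φ W'.starProjection with hpd
    have hpD : p ∈ DD G := by
      refine hcm p fun a ha x => ?_
      have h1 := hp (up Φ a) ⟨a, ha, rfl⟩
      have h2 := congrArg (dn Φ) h1
      rw [dn_mul, dn_mul, dn_up] at h2
      exact (congrArg (fun T : E →L[ℝ] E => T x) h2).symm
    have hfix : ∀ x, p x = x ↔ x ∈ W := by
      intro x
      constructor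
      · intro h
        have h1 : Φ x = W'.starProjection (Φ x) := by
          have := congrArg Φ h
          rw [hpd, dn_apply, Φ.apply_symm_apply] at this
          exact this.symm
        have h2 : Φ x ∈ W' := by
          rw [h1]; exact Submodule.starProjection_apply_mem _ _
        obtain ⟨y, hy, hxy⟩ := h2
        have : y = x := Φ.injective hxy
        rwa [this] at hy
      · intro hx
        rw [hpd, dn_apply]
        have : Φ x ∈ W' := ⟨x, hx, rfl⟩
        rw [Submodule.starProjection_eq_self_iff.2 this, Φ.symm_apply_apply]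
    have hpp : ∀ x, p (p x) = p x := by
      intro x
      apply (hfix _).2
      have h2 : Φ (p x) ∈ W' := by
        rw [hpd, dn_apply, Φ.apply_symm_apply]
        exact Submodule.starProjection_apply_mem _ _
      obtain ⟨y, hy, hxy⟩ := h2
      have : y = p x := Φ.injective hxy
      rwa [this] at hy
    have hn := hmul p hpD
    by_cases hp0 : p = 0
    · left
      rw [Submodule.eq_bot_iff]
      intro x hx
      have := (hfix x).2 hx
      rw [hp0] at this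
      exact this.symm
    · right
      rw [Submodule.eq_top_iff']
      intro x
      apply (hfix x).1
      have h1 : ‖p (p x - x)‖ = ‖p‖ * ‖p x - x‖ := hn _
      rw [map_sub, hpp, sub_self, norm_zero] at h1
      have h2 : ‖p‖ ≠ 0 := norm_ne_zero_iff.2 hp0
      have h3 : ‖p x - x‖ = 0 := by
        rcases mul_eq_zero.1 h1.symm with h | h
        · exact absurd h h2
        · exact h
      exact sub_eq_zero.1 (norm_eq_zero.1 h3)
  · left
    intro a ha
    refine case_div (C := S.centralizer) Φ cS.cm.cm rfl (cm_star (cm_star sS)) hnz ?_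
    intro c hc
    exact (hc _ ⟨a, ha, rfl⟩).symm

end Pool.R988.BM
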