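import Pool.Agent.R988.BM.Norm

/-!
# The operators which commute with all `T* T`
-/

set_option autoImplicit false

namespace Pool.R988.BM

open scoped InnerProductSpace Quaternion
open Pool.Agent.TH596.RO

variable {E : Type} [NormedAddCommGroup E] [NormedSpace ℝ E]
variable {H : Type} [NormedAddCommGroup H] [InnerProductSpace ℝ H]

/-- the operators `T* T`, `T ∈ G` -/
def PP [CompleteSpace H] (Φ : E ≃L[ℝ] H) (G : Subgroup (E ≃ₗᵢ[ℝ] E)) : Set (H →L[ℝ] H) :=
  {b | ∃ T ∈ G, b = star (tH Φ T) * tH Φ T}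

lemma PP_SC [CompleteSpace H] (Φ : E ≃L[ℝ] H) (G : Subgroup (E ≃ₗᵢ[ℝ] E)) : SC (PP Φ G) := by
  rintro b ⟨T, hT, rfl⟩
  refine ⟨T, hT, ?_⟩
  rw [star_mul, star_star]

lemma tH_mul (Φ : E ≃L[ℝ] H) (T U : E ≃ₗᵢ[ℝ] E) : tH Φ (T * U) = tH Φ T * tH Φ U := by
  ext v
  show Φ (T (U (Φ.symm v))) = Φ (T (Φ.symm (Φ (U (Φ.symm v)))))
  rw [Φ.symm_apply_apply]

lemma tH_inv (Φ : E ≃L[ℝ] H) (U : E ≃ₗᵢ[ℝ] E) : tH Φ U * tH Φ U.symm = 1 := by
  ext v
  show Φ (U (Φ.symm (Φ (U.symm (Φ.symm v))))) = v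
  rw [Φ.symm_apply_apply, U.apply_symm_apply, Φ.apply_symm_apply]

lemma tH_inv' (Φ : E ≃L[ℝ] H) (U : E ≃ₗᵢ[ℝ] E) : tH Φ U.symm * tH Φ U = 1 := by
  ext v
  show Φ (U.symm (Φ.symm (Φ (U (Φ.symm v))))) = v
  rw [Φ.symm_apply_apply, U.symm_apply_apply, Φ.apply_symm_apply]

lemma cH_eq (Φ : E ≃L[ℝ] H) (U : E ≃ₗᵢ[ℝ] E) (b : H →L[ℝ] H) :
    cH Φ U b = tH Φ U * b * tH Φ U.symm := by
  ext v
  show Φ (U (Φ.symm (b (Φ (U.symm (Φ.symm v)))))) = Φ (U (Φ.symm (b (Φ (U.symm (Φ.symm v))))))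
  rfl

/-- the commutant of all `T* T` is invariant under conjugation -/
lemma PP_CI [CompleteSpace H] (Φ : E ≃L[ℝ] H) (G : Subgroup (E ≃ₗᵢ[ℝ] E)) :
    CI Φ G (PP Φ G).centralizer := by
  rintro U hU b hb m ⟨T, hT, rfl⟩
  rw [cH_eq]
  set u := tH Φ U with hu
  set u' := tH Φ U.symm with hu'
  set t := tH Φ T with ht
  have huu : u * u' = 1 := tH_inv Φ U
  have hu'u : u' * u = 1 := tH_inv' Φ U
  have hs1 : star u' * star u = 1 := by rw [← star_mul, huu, star_one]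
  have h1 : (star u * (star t * t) * u) * b = b * (star u * (star t * t) * u) := by
    have := hb _ ⟨T * U, G.mul_mem hT hU, rfl⟩
    rw [tH_mul, star_mul] at this
    have e : star (tH Φ U) * star (tH Φ T) * (tH Φ T * tH Φ U) = star u * (star t * t) * u := by
      rw [← hu, ← ht]; simp only [mul_assoc]
    rw [e] at this
    exact this
  have h2 : (star u * u) * b = b * (star u * u) := hb _ ⟨U, hU, rfl⟩
  -- conjugated identity
  have h3 : star u * ((star t * t) * (u * b * u')) * u = star u * ((u * b * u') * (star t * t)) * u := by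
    calc star u * ((star t * t) * (u * b * u')) * u
        = (star u * (star t * t) * u) * b * (u' * u) := by simp only [mul_assoc]
      _ = b * (star u * (star t * t) * u) := by rw [hu'u, mul_one, h1]
      _ = b * (star u * (u * u') * (star t * t) * u) := by rw [huu, mul_one]
      _ = (b * (star u * u)) * (u' * (star t * t) * u) := by simp only [mul_assoc]
      _ = ((star u * u) * b) * (u' * (star t * t) * u) := by rw [h2]
      _ = star u * ((u * b * u') * (star t * t)) * u := by simp only [mul_assoc]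
  calc (star t * t) * (u * b * u')
      = (star u' * star u) * ((star t * t) * (u * b * u')) * (u * u') := by
        rw [hs1, huu, one_mul, mul_one]
    _ = star u' * (star u * ((star t * t) * (u * b * u')) * u) * u' := by simp only [mul_assoc]
    _ = star u' * (star u * ((u * b * u') * (star t * t)) * u) * u' := by rw [h3]
    _ = (star u' * star u) * ((u * b * u') * (star t * t)) * (u * u') := by simp only [mul_assoc]
    _ = (u * b * u') * (star t * t) := by rw [hs1, huu, one_mul, mul_one]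

/-- an operator with a common adjoint for all the inner products `⟨T x, T y⟩` -/
theorem adj_case [CompleteSpace E] [TopologicalSpace.SeparableSpace E] [CompleteSpace H]
    [Nontrivial H] (Φ : E ≃L[ℝ] H)
    {G : Subgroup (E ≃ₗᵢ[ℝ] E)} (htr : ∀ x y : E, ‖x‖ = 1 → ‖y‖ = 1 → ∃ T ∈ G, T x = y)
    {c d : E →L[ℝ] E}
    (hcd : ∀ T ∈ G, ∀ x y, ⟪Φ (T (c x)), Φ (T y)⟫_ℝ = ⟪Φ (T x), Φ (T (d y))⟫_ℝ) :
    (∀ x y : E, ‖x + y‖ * ‖x + y‖ + ‖x - y‖ * ‖x - y‖ = 2 * (‖x‖ * ‖x‖ + ‖y‖ * ‖y‖)) ∨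
      c ∈ DD G := by
  set C : Set (H →L[ℝ] H) := (PP Φ G).centralizer with hC
  have sC : SC C := cm_star (PP_SC Φ G)
  have cC : CI Φ G C := PP_CI Φ G
  have hst : star (up Φ c) = up Φ d := by
    symm
    rw [ContinuousLinearMap.star_eq_adjoint, ContinuousLinearMap.eq_adjoint_iff]
    intro v w
    have h1 := hcd 1 G.one_mem (Φ.symm w) (Φ.symm v)
    have h2 : ⟪Φ (c (Φ.symm w)), Φ (Φ.symm v)⟫_ℝ = ⟪Φ (Φ.symm w), Φ (d (Φ.symm v))⟫_ℝ := h1
    rw [Φ.apply_symm_apply, Φ.apply_symm_apply] at h2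
    rw [up_apply, up_apply, real_inner_comm, ← h2, real_inner_comm]
  have hmem : up Φ c ∈ C := by
    rintro m ⟨T, hT, rfl⟩
    set t := tH Φ T with ht
    have key : ∀ v w, ⟪(star t * t * up Φ c) v, w⟫_ℝ = ⟪(up Φ c * (star t * t)) v, w⟫_ℝ := by
      intro v w
      have e1 : ⟪(star t * t * up Φ c) v, w⟫_ℝ = ⟪t (up Φ c v), t w⟫_ℝ := by
        show ⟪(ContinuousLinearMap.adjoint t) (t (up Φ c v)), w⟫_ℝ = _
        rw [ContinuousLinearMap.adjoint_inner_left]
      have e2 : ⟪t (up Φ c v), t w⟫_ℝ = ⟪t v, t (up Φ d w)⟫_ℝ := by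
        have h1 := hcd T hT (Φ.symm v) (Φ.symm w)
        have f1 : t (up Φ c v) = Φ (T (c (Φ.symm v))) := by
          rw [ht, tH_apply, up_apply, Φ.symm_apply_apply]
        have f2 : t (up Φ d w) = Φ (T (d (Φ.symm w))) := by
          rw [ht, tH_apply, up_apply, Φ.symm_apply_apply]
        rw [f1, f2, ht, tH_apply, tH_apply]
        exact h1
      have e3 : ⟪t v, t (up Φ d w)⟫_ℝ = ⟪(star t * t) v, star (up Φ c) w⟫_ℝ := by
        rw [hst]
        show _ = ⟪(ContinuousLinearMap.adjoint t) (t v), _⟫_ℝ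
        rw [ContinuousLinearMap.adjoint_inner_left]
      have e4 : ⟪(star t * t) v, star (up Φ c) w⟫_ℝ = ⟪(up Φ c * (star t * t)) v, w⟫_ℝ := by
        show ⟪(star t * t) v, (ContinuousLinearMap.adjoint (up Φ c)) w⟫_ℝ = _
        rw [ContinuousLinearMap.adjoint_inner_right]
        rfl
      rw [e1, e2, e3, e4]
    apply ContinuousLinearMap.ext
    intro v
    exact ext_inner_right ℝ (key v)
  rcases gen_dich Φ htr cC sC with hnz | hnz
  · left
    refine hilb_of_mem Φ htr (S := C) ?_ hnz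
    intro T hT b hb
    exact (hb _ ⟨T, hT, rfl⟩).symm
  · right
    refine case_div (C := C.centralizer) Φ cC.cm.cm rfl (cm_star (cm_star sC)) hnz ?_
    intro b hb
    exact (hb _ hmem).symm

/-- the case of a closed subspace -/
theorem split_case [CompleteSpace E] [TopologicalSpace.SeparableSpace E] [CompleteSpace H]
    [Nontrivial H] (Φ : E ≃L[ℝ] H)
    {G : Subgroup (E ≃ₗᵢ[ℝ] E)} (htr : ∀ x y : E, ‖x‖ = 1 → ‖y‖ = 1 → ∃ T ∈ G, T x = y)
    (hmul : ∀ a ∈ DD G, ∀ x, ‖a x‖ = ‖a‖ * ‖x‖)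
    {W : Submodule ℝ E} (hW : IsClosed (W : Set E))
    (hWT : ∀ T ∈ G, ∀ w ∈ W, ∀ v, (∀ w' ∈ W, ⟪Φ w', Φ v⟫_ℝ = 0) → ⟪Φ (T w), Φ (T v)⟫_ℝ = 0) :
    (∀ x y : E, ‖x + y‖ * ‖x + y‖ + ‖x - y‖ * ‖x - y‖ = 2 * (‖x‖ * ‖x‖ + ‖y‖ * ‖y‖)) ∨
      W = ⊥ ∨ W = ⊤ := by
  set W' : Submodule ℝ H := W.map ((Φ : E →L[ℝ] H) : E →ₗ[ℝ] H) with hW'
  have hW'c : IsClosed (W' : Set H) := by
    have : (W' : Set H) = Φ '' (W : Set E) := rfl
    rw [this]
    exact Φ.toHomeomorph.isClosedMap _ hW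
  haveI : CompleteSpace W' := hW'c.completeSpace_coe
  set p : E →L[ℝ] E := dn Φ W'.starProjection with hpd
  have hpW : ∀ x, p x ∈ W := by
    intro x
    have h2 : Φ (p x) ∈ W' := by
      rw [hpd, dn_apply, Φ.apply_symm_apply]
      exact Submodule.starProjection_apply_mem _ _
    obtain ⟨y, hy, hxy⟩ := h2
    have : y = p x := Φ.injective hxy
    rwa [this] at hy
  have hort : ∀ x, ∀ w' ∈ W, ⟪Φ w', Φ (x - p x)⟫_ℝ = 0 := by
    intro x w' hw'
    have h1 : Φ (x - p x) = Φ x - W'.starProjection (Φ x) := by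
      rw [map_sub, hpd, dn_apply, Φ.apply_symm_apply]
    rw [h1, real_inner_comm]
    exact Submodule.starProjection_inner_eq_zero _ _ ⟨w', hw', rfl⟩
  have hfix : ∀ x, p x = x ↔ x ∈ W := by
    intro x
    constructor
    · intro h
      rw [← h]; exact hpW x
    · intro hx
      rw [hpd, dn_apply]
      have : Φ x ∈ W' := ⟨x, hx, rfl⟩
      rw [Submodule.starProjection_eq_self_iff.2 this, Φ.symm_apply_apply]
  have hcd : ∀ T ∈ G, ∀ x y, ⟪Φ (T (p x)), Φ (T y)⟫_ℝ = ⟪Φ (T x), Φ (T (p y))⟫_ℝ := by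
    intro T hT x y
    have h1 := hWT T hT (p x) (hpW x) (y - p y) (hort y)
    have h2 := hWT T hT (p y) (hpW y) (x - p x) (hort x)
    rw [map_sub, map_sub, inner_sub_right, sub_eq_zero] at h1 h2
    rw [h1, real_inner_comm, ← h2, real_inner_comm]
  rcases adj_case Φ htr hcd with h | hpD
  · exact Or.inl h
  right
  have hpp : ∀ x, p (p x) = p x := fun x => (hfix _).2 (hpW x)
  have hn := hmul p hpD
  by_cases hp0 : p = 0
  · left
    rw [Submodule.eq_bot_iff]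
    intro x hx
    have := (hfix x).2 hx
    rw [hp0] at this
    exact this.symm
  · right
    rw [Submodule.eq_top_iff']
    intro x
    apply (hfix x).1
    have h1 : ‖p (p x - x)‖ = ‖p‖ * ‖p x - x‖ := hn _
    rw [map_sub, hpp, sub_self, norm_zero] at h1
    have h2 : ‖p‖ ≠ 0 := norm_ne_zero_iff.2 hp0
    have h3 : ‖p x - x‖ = 0 := by
      rcases mul_eq_zero.1 h1.symm with h | h
      · exact absurd h h2
      · exact h
    exact sub_eq_zero.1 (norm_eq_zero.1 h3)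

end Pool.R988.BM
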