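import Mathlib

/-!
# The square root of `1 - u` in a Banach algebra, for `‖u‖ ≤ 1`

`1 - √(1 - t) = ∑ c k * t ^ (k + 1)` with `c k = catalan k / (2 * 4 ^ k)`, `∑ c k ≤ 1`.
-/

set_option autoImplicit false

namespace Pool.R988.BM

open Finset

/-- the coefficients -/
noncomputable def cc (k : ℕ) : ℝ := (catalan k : ℝ) / (2 * 4 ^ k)

lemma cc_nonneg (k : ℕ) : 0 ≤ cc k := by unfold cc; positivity

lemma cc_zero : cc 0 = 1 / 2 := by simp [cc]

lemma cc_eq (k : ℕ) : cc k = (Nat.centralBinom k : ℝ) / 4 ^ k - (Nat.centralBinom (k + 1) : ℝ) / 4 ^ (k + 1) := by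
  have h1 : ((k : ℝ) + 1) * (catalan k : ℝ) = (Nat.centralBinom k : ℝ) := by
    exact_mod_cast succ_mul_catalan_eq_centralBinom k
  have h2 : ((k : ℝ) + 1) * (Nat.centralBinom (k + 1) : ℝ) = 2 * (2 * k + 1) * (Nat.centralBinom k : ℝ) := by
    exact_mod_cast Nat.succ_mul_centralBinom_succ k
  have h3 : (Nat.centralBinom (k + 1) : ℝ) = 2 * (2 * k + 1) * (catalan k : ℝ) := by
    have hk : (k : ℝ) + 1 ≠ 0 := by positivity
    apply mul_left_cancel₀ hk
    rw [h2, ← h1]; ring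
  unfold cc
  rw [h3, ← h1, pow_succ]
  field_simp
  ring

lemma sum_cc (n : ℕ) : ∑ k ∈ range n, cc k = 1 - (Nat.centralBinom n : ℝ) / 4 ^ n := by
  induction n with
  | zero => simp
  | succ n ih => rw [sum_range_succ, ih, cc_eq]; ring

lemma sum_cc_le (n : ℕ) : ∑ k ∈ range n, cc k ≤ 1 := by
  rw [sum_cc]
  have : (0 : ℝ) ≤ (Nat.centralBinom n : ℝ) / 4 ^ n := by positivity
  linarith

lemma summable_cc : Summable cc := summable_of_sum_range_le cc_nonneg sum_cc_le

lemma tsum_cc_le : ∑' k, cc k ≤ 1 := summable_cc.tsum_le_of_sum_range_le sum_cc_le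

lemma conv_cc (n : ℕ) : ∑ p ∈ antidiagonal n, cc p.1 * cc p.2 = 2 * cc (n + 1) := by
  have h1 : ∀ p ∈ antidiagonal n, cc p.1 * cc p.2 =
      ((catalan p.1 * catalan p.2 : ℕ) : ℝ) / (4 * 4 ^ n) := by
    intro p hp
    rw [← mem_antidiagonal.1 hp]
    unfold cc
    push_cast
    rw [pow_add]
    field_simp
    ring
  rw [sum_congr rfl h1, ← sum_div, ← Nat.cast_sum, ← catalan_succ']
  unfold cc
  rw [pow_succ]
  field_simp

section
variable {A : Type*} [NormedRing A] [NormedAlgebra ℝ A] [CompleteSpace A] [NormOneClass A]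

lemma term_le {u : A} (hu : ‖u‖ ≤ 1) (k : ℕ) : ‖cc k • u ^ (k + 1)‖ ≤ cc k := by
  rw [norm_smul, Real.norm_of_nonneg (cc_nonneg k)]
  exact mul_le_of_le_one_right (cc_nonneg k) ((norm_pow_le u _).trans (pow_le_one₀ (norm_nonneg _) hu))

lemma summable_norm_term {u : A} (hu : ‖u‖ ≤ 1) : Summable fun k => ‖cc k • u ^ (k + 1)‖ :=
  Summable.of_nonneg_of_le (fun _ => norm_nonneg _) (term_le hu) summable_cc

lemma summable_term {u : A} (hu : ‖u‖ ≤ 1) : Summable fun k => cc k • u ^ (k + 1) :=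
  (summable_norm_term hu).of_norm

/-- `1 - √(1 - u)` -/
noncomputable def sg (u : A) : A := ∑' k, cc k • u ^ (k + 1)

lemma sg_sq {u : A} (hu : ‖u‖ ≤ 1) : sg u * sg u = 2 • sg u - u := by
  have h1 : sg u * sg u = ∑' n, 2 • (cc (n + 1) • u ^ (n + 2)) := by
    unfold sg
    rw [tsum_mul_tsum_eq_tsum_sum_antidiagonal_of_summable_norm (summable_norm_term hu)
      (summable_norm_term hu)]
    congr 1
    funext n
    have h2 : ∀ p ∈ antidiagonal n, cc p.1 • u ^ (p.1 + 1) * cc p.2 • u ^ (p.2 + 1) =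
        (cc p.1 * cc p.2) • u ^ (n + 2) := by
      intro p hp
      rw [smul_mul_smul_comm, ← pow_add, ← mem_antidiagonal.1 hp]
      congr 2
      ring
    rw [sum_congr rfl h2, ← sum_smul, conv_cc, mul_smul, two_smul, two_smul]
  have h2 : sg u = (1 / 2 : ℝ) • u + ∑' n, cc (n + 1) • u ^ (n + 2) := by
    unfold sg
    rw [(summable_term hu).tsum_eq_zero_add, cc_zero, zero_add, pow_one]
  have hs : Summable fun n => cc (n + 1) • u ^ (n + 2) :=
    (summable_nat_add_iff 1).2 (summable_term hu)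
  rw [h1, hs.tsum_const_smul, h2]
  have : (2 : ℕ) • ((1 / 2 : ℝ) • u) = u := by
    rw [← Nat.cast_smul_eq_nsmul ℝ, smul_smul]; norm_num
  rw [smul_add, this]
  abel

/-- the square root of `1 - u` -/
noncomputable def sq1 (u : A) : A := 1 - sg u

lemma sq1_sq {u : A} (hu : ‖u‖ ≤ 1) : sq1 u * sq1 u = 1 - u := by
  unfold sq1
  have h := sg_sq hu
  have h2 : (1 - sg u) * (1 - sg u) = 1 - 2 • sg u + sg u * sg u := by noncomm_ring
  rw [h2, h]
  abel

lemma sg_comm {u v : A} (hu : ‖u‖ ≤ 1) (h : v * u = u * v) : v * sg u = sg u * v := by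
  unfold sg
  rw [← (summable_term hu).tsum_mul_left, ← (summable_term hu).tsum_mul_right]
  congr 1
  funext k
  have h1 : v * u ^ (k + 1) = u ^ (k + 1) * v := (Commute.pow_right (show Commute v u from h) (k + 1)).eq
  rw [mul_smul_comm, h1, smul_mul_assoc]

lemma sq1_comm {u v : A} (hu : ‖u‖ ≤ 1) (h : v * u = u * v) : v * sq1 u = sq1 u * v := by
  unfold sq1
  rw [mul_sub, sub_mul, sg_comm hu h, mul_one, one_mul]

end

end Pool.R988.BM
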