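import Pool.Agent.R988.BM.Cyc
import Pool.Agent.TH596.RO.Main
import Pool.Agent.H590R3.AbCore

/-!
# Transport of operators and of the conjugation action to a Hilbert space
-/

set_option autoImplicit false

namespace Pool.R988.BM

open scoped InnerProductSpace
open Pool.Agent.TH596.RO

variable {E : Type*} [NormedAddCommGroup E] [NormedSpace ℝ E]
variable {H : Type*} [NormedAddCommGroup H] [InnerProductSpace ℝ H]

/-- `Φ a Φ⁻¹` -/
noncomputable def up (Φ : E ≃L[ℝ] H) (a : E →L[ℝ] E) : H →L[ℝ] H :=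
  (Φ : E →L[ℝ] H).comp (a.comp (Φ.symm : H →L[ℝ] E))

/-- `Φ⁻¹ b Φ` -/
noncomputable def dn (Φ : E ≃L[ℝ] H) (b : H →L[ℝ] H) : E →L[ℝ] E :=
  (Φ.symm : H →L[ℝ] E).comp (b.comp (Φ : E →L[ℝ] H))

variable (Φ : E ≃L[ℝ] H)

lemma up_apply (a : E →L[ℝ] E) (v : H) : up Φ a v = Φ (a (Φ.symm v)) := rfl
lemma dn_apply (b : H →L[ℝ] H) (v : E) : dn Φ b v = Φ.symm (b (Φ v)) := rfl

lemma up_dn (b : H →L[ℝ] H) : up Φ (dn Φ b) = b := by
  ext v; rw [up_apply, dn_apply, Φ.apply_symm_apply, Φ.apply_symm_apply]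

lemma dn_up (a : E →L[ℝ] E) : dn Φ (up Φ a) = a := by
  ext v; rw [dn_apply, up_apply, Φ.symm_apply_apply, Φ.symm_apply_apply]

lemma up_mul (a b : E →L[ℝ] E) : up Φ (a * b) = up Φ a * up Φ b := by
  ext v
  show Φ (a (b (Φ.symm v))) = Φ (a (Φ.symm (Φ (b (Φ.symm v)))))
  rw [Φ.symm_apply_apply]

lemma dn_mul (a b : H →L[ℝ] H) : dn Φ (a * b) = dn Φ a * dn Φ b := by
  ext v
  show Φ.symm (a (b (Φ v))) = Φ.symm (a (Φ (Φ.symm (b (Φ v)))))
  rw [Φ.apply_symm_apply]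

lemma up_one : up Φ 1 = 1 := by
  ext v; exact Φ.apply_symm_apply v

lemma up_zero : up Φ 0 = 0 := by
  ext v; exact map_zero Φ

lemma up_add (a b : E →L[ℝ] E) : up Φ (a + b) = up Φ a + up Φ b := by
  ext v; exact map_add Φ _ _

lemma up_smul (r : ℝ) (a : E →L[ℝ] E) : up Φ (r • a) = r • up Φ a := by
  ext v; exact map_smul Φ _ _

lemma up_inj {a b : E →L[ℝ] E} (h : up Φ a = up Φ b) : a = b := by
  rw [← dn_up Φ a, h, dn_up]

/-- the conjugation action of isometries of `E` on the operators on `H` -/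
noncomputable def cH (T : E ≃ₗᵢ[ℝ] E) (b : H →L[ℝ] H) : H →L[ℝ] H := up Φ (cj T (dn Φ b))

lemma cH_mul (T : E ≃ₗᵢ[ℝ] E) (a b : H →L[ℝ] H) : cH Φ T (a * b) = cH Φ T a * cH Φ T b := by
  unfold cH; rw [dn_mul, map_mul, up_mul]

lemma cH_symm (T : E ≃ₗᵢ[ℝ] E) (b : H →L[ℝ] H) : cH Φ T (cH Φ T.symm b) = b := by
  unfold cH
  rw [dn_up]
  have h : cj T (cj T.symm (dn Φ b)) = dn Φ b := by
    have := cj_symm T.symm (dn Φ b)
    rwa [LinearIsometryEquiv.symm_symm] at this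
  rw [h, up_dn]

/-- invariance of a set of operators on `H` -/
def CI (G : Subgroup (E ≃ₗᵢ[ℝ] E)) (S : Set (H →L[ℝ] H)) : Prop :=
  ∀ T ∈ G, ∀ b ∈ S, cH Φ T b ∈ S

lemma CI.cm {G : Subgroup (E ≃ₗᵢ[ℝ] E)} {S : Set (H →L[ℝ] H)} (h : CI Φ G S) :
    CI Φ G S.centralizer := by
  intro T hT c hc m hm
  have h1 : cH Φ T.symm m ∈ S := h T⁻¹ (G.inv_mem hT) m hm
  have h2 := hc _ h1
  rw [← cH_symm Φ T m, ← cH_mul, ← cH_mul, h2]

/-- the operator on `H` given by an isometry of `E` -/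
noncomputable def tH (T : E ≃ₗᵢ[ℝ] E) : H →L[ℝ] H := up Φ (Pool.H590R3.Ab.op T)

lemma tH_apply (T : E ≃ₗᵢ[ℝ] E) (v : H) : tH Φ T v = Φ (T (Φ.symm v)) := rfl

lemma cH_apply_tH (T : E ≃ₗᵢ[ℝ] E) (b : H →L[ℝ] H) (v : H) : cH Φ T b (tH Φ T v) = tH Φ T (b v) := by
  show Φ (T (Φ.symm (b (Φ (T.symm (Φ.symm (Φ (T (Φ.symm v))))))))) = Φ (T (Φ.symm (b v)))
  rw [Φ.symm_apply_apply, T.symm_apply_apply, Φ.apply_symm_apply]

lemma tH_surj (T : E ≃ₗᵢ[ℝ] E) (v : H) : tH Φ T (Φ (T.symm (Φ.symm v))) = v := by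
  rw [tH_apply, Φ.symm_apply_apply, T.apply_symm_apply, Φ.apply_symm_apply]

/-- the centre of an invariant pair of mutual commutants is trivial -/
theorem center_triv [CompleteSpace E] [TopologicalSpace.SeparableSpace E]
    (G : Subgroup (E ≃ₗᵢ[ℝ] E))
    (htr : ∀ x y : E, ‖x‖ = 1 → ‖y‖ = 1 → ∃ T ∈ G, T x = y)
    {B C : Set (H →L[ℝ] H)} (hB : CI Φ G B) (hBC : ∀ b ∈ B, ∀ c ∈ C, b * c = c * b)
    {z : H →L[ℝ] H} (hzB : z ∈ B) (hzC : z ∈ C) (hz : z * z = z) : z = 0 ∨ z = 1 := by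
  by_cases h1 : z = 1
  · exact Or.inr h1
  left
  obtain ⟨v, hv⟩ : ∃ v, z v ≠ v := by
    by_contra hcon
    push Not at hcon
    exact h1 (ContinuousLinearMap.ext hcon)
  have hzz : ∀ w, z (z w) = z w := fun w => congrArg (fun T : H →L[ℝ] H => T w) hz
  have hx0 : Φ.symm (v - z v) ≠ 0 := by
    intro h0
    have : v - z v = 0 := by
      have := congrArg Φ h0
      rwa [Φ.apply_symm_apply, map_zero] at this
    exact hv (sub_eq_zero.1 this).symm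
  have hcore := Pool.H590R3.Ab.core G htr (dn Φ z) (fun T hT w => ?_) _ hx0 ?_
  · ext w
    have h2 := hcore (Φ.symm w)
    rw [dn_apply, dn_apply, Φ.apply_symm_apply, Φ.apply_symm_apply, hzz] at h2
    have h3 := congrArg Φ h2
    rwa [Φ.apply_symm_apply, map_zero] at h3
  · have h2 := hBC _ (hB T hT z hzB) _ hzC
    have h3 := congrArg (fun S : H →L[ℝ] H => Φ.symm (S (Φ w))) h2
    have h4 : Φ.symm (Φ (T (Φ.symm (z (Φ (T.symm (Φ.symm (z (Φ w))))))))) =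
      Φ.symm (z (Φ (T (Φ.symm (z (Φ (T.symm (Φ.symm (Φ w)))))))))  := h3
    rw [Φ.symm_apply_apply, Φ.symm_apply_apply] at h4
    exact h4
  · rw [dn_apply, Φ.apply_symm_apply, map_sub, hzz, sub_self, map_zero]

/-- cyclicity is invariant -/
theorem cyc_inv_all [CompleteSpace H] (G : Subgroup (E ≃ₗᵢ[ℝ] E))
    (htr : ∀ x y : E, ‖x‖ = 1 → ‖y‖ = 1 → ∃ T ∈ G, T x = y)
    {B : Set (H →L[ℝ] H)} (hB : CI Φ G B) {x y : H} (hx : x ≠ 0) (hy : y ≠ 0)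
    (hc : cyc B x = ⊤) : cyc B y = ⊤ := by
  have hx' : 0 < ‖Φ.symm x‖ := norm_pos_iff.2 (by simpa using hx)
  have hy' : 0 < ‖Φ.symm y‖ := norm_pos_iff.2 (by simpa using hy)
  obtain ⟨T, hT, hTx⟩ := htr (‖Φ.symm x‖⁻¹ • Φ.symm x) (‖Φ.symm y‖⁻¹ • Φ.symm y)
    (by rw [norm_smul, norm_inv, norm_norm, inv_mul_cancel₀ hx'.ne'])
    (by rw [norm_smul, norm_inv, norm_norm, inv_mul_cancel₀ hy'.ne'])
  have h1 : tH Φ T x = (‖Φ.symm x‖ * ‖Φ.symm y‖⁻¹) • y := by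
    have h2 : T (Φ.symm x) = (‖Φ.symm x‖ * ‖Φ.symm y‖⁻¹) • Φ.symm y := by
      rw [map_smul] at hTx
      rw [mul_smul, ← hTx, smul_smul, mul_inv_cancel₀ hx'.ne', one_smul]
    rw [tH_apply, h2, map_smul, Φ.apply_symm_apply]
  set K : Submodule ℝ H := cyc B y with hK
  have h3 : cyc B x ≤ K.comap (tH Φ T : H →ₗ[ℝ] H) := by
    refine cyc_le ((cyc_closed B y).preimage (tH Φ T).continuous) fun b hb => ?_
    show tH Φ T (b x) ∈ K
    rw [← cH_apply_tH, h1, map_smul]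
    exact Submodule.smul_mem _ _ (mem_cyc (hB T hT b hb) y)
  rw [eq_top_iff]
  intro v _
  rw [← tH_surj Φ T v]
  rw [hc] at h3
  exact h3 (Submodule.mem_top : Φ (T.symm (Φ.symm v)) ∈ ⊤)

/-- if all nonzero vectors are cyclic, then the commutant has no zero divisors -/
theorem nzd_of_cyc [CompleteSpace H] {B C : Set (H →L[ℝ] H)} (h : Fac B C) (hc : ∀ y : H, y ≠ 0 → cyc B y = ⊤) :
    ∀ a ∈ C, ∀ b ∈ C, a * b = 0 → a = 0 ∨ b = 0 := by
  intro a ha b _ hab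
  by_cases hb : b = 0
  · exact Or.inr hb
  left
  obtain ⟨v, hv⟩ : ∃ v, b v ≠ 0 := by
    by_contra hcon
    push Not at hcon
    exact hb (ContinuousLinearMap.ext hcon)
  have h0 : a (b v) = 0 := congrArg (fun T : H →L[ℝ] H => T v) hab
  have h1 : cyc B (b v) ≤ LinearMap.ker (a : H →ₗ[ℝ] H) := by
    refine cyc_le a.isClosed_ker fun c hc => ?_
    show a (c (b v)) = 0
    have h2 : a * c = c * a := (h.comm hc ha).symm
    have h3 : a (c (b v)) = c (a (b v)) := congrArg (fun T : H →L[ℝ] H => T (b v)) h2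
    rw [h3, h0, map_zero]
  rw [hc _ hv] at h1
  ext w
  exact h1 (Submodule.mem_top : w ∈ ⊤)

end Pool.R988.BM
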