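import Pool.Agent.R988.BM.Sq

/-!
# Commutants of self-adjoint sets of operators on a real Hilbert space
-/

set_option autoImplicit false

namespace Pool.R988.BM

open scoped InnerProductSpace

variable {H : Type*} [NormedAddCommGroup H] [InnerProductSpace ℝ H] [CompleteSpace H]

/-- closed under adjoints -/
def SC (S : Set (H →L[ℝ] H)) : Prop := ∀ a ∈ S, star a ∈ S

lemma cm_add {S : Set (H →L[ℝ] H)} {a b : H →L[ℝ] H} (ha : a ∈ S.centralizer)
    (hb : b ∈ S.centralizer) : a + b ∈ S.centralizer := by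
  intro m hm
  rw [mul_add, add_mul, ha m hm, hb m hm]

lemma cm_sub {S : Set (H →L[ℝ] H)} {a b : H →L[ℝ] H} (ha : a ∈ S.centralizer)
    (hb : b ∈ S.centralizer) : a - b ∈ S.centralizer := by
  intro m hm
  rw [mul_sub, sub_mul, ha m hm, hb m hm]

lemma cm_smul {S : Set (H →L[ℝ] H)} {a : H →L[ℝ] H} (r : ℝ) (ha : a ∈ S.centralizer) :
    r • a ∈ S.centralizer := by
  intro m hm
  rw [mul_smul_comm, smul_mul_assoc, ha m hm]

lemma cm_mul {S : Set (H →L[ℝ] H)} {a b : H →L[ℝ] H} (ha : a ∈ S.centralizer)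
    (hb : b ∈ S.centralizer) : a * b ∈ S.centralizer := by
  intro m hm
  rw [← mul_assoc, ha m hm, mul_assoc, hb m hm, mul_assoc]

lemma cm_one {S : Set (H →L[ℝ] H)} : (1 : H →L[ℝ] H) ∈ S.centralizer := by
  intro m _
  rw [mul_one, one_mul]

lemma cm_zero {S : Set (H →L[ℝ] H)} : (0 : H →L[ℝ] H) ∈ S.centralizer := by
  intro m _
  rw [mul_zero, zero_mul]

lemma cm_star {S : Set (H →L[ℝ] H)} (hS : SC S) : SC S.centralizer := by
  intro a ha m hm
  have h := ha (star m) (hS m hm)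
  have h2 := congrArg star h
  rw [star_mul, star_mul, star_star] at h2
  exact h2.symm

/-- without zero divisors the self-adjoint elements of a commutant are scalars -/
theorem scalar_of_nzd [Nontrivial H] {S : Set (H →L[ℝ] H)}
    (hnz : ∀ a ∈ S.centralizer, ∀ b ∈ S.centralizer, a * b = 0 → a = 0 ∨ b = 0)
    {c : H →L[ℝ] H} (hc : c ∈ S.centralizer) (hsa : IsSelfAdjoint c) :
    ∃ r : ℝ, c = r • (1 : H →L[ℝ] H) := by
  have hsym : ∀ x y : H, ⟪c x, y⟫_ℝ = ⟪x, c y⟫_ℝ := by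
    intro x y
    exact (ContinuousLinearMap.isSelfAdjoint_iff_isSymmetric.1 hsa) x y
  have key : ∀ l : ℝ, (∀ x : H, l * ‖x‖ ^ 2 ≤ ⟪c x, x⟫_ℝ) ∨ (∀ x : H, ⟪c x, x⟫_ℝ ≤ l * ‖x‖ ^ 2) := by
    intro l
    set d : H →L[ℝ] H := c - l • (1 : H →L[ℝ] H) with hd
    have hdc : d ∈ S.centralizer := cm_sub hc (cm_smul l cm_one)
    have hdx : ∀ x, ⟪d x, x⟫_ℝ = ⟪c x, x⟫_ℝ - l * ‖x‖ ^ 2 := by
      intro x
      have : d x = c x - l • x := rfl
      rw [this, inner_sub_left, inner_smul_left, real_inner_self_eq_norm_sq]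
      simp
    have hdsym : ∀ x y : H, ⟪d x, y⟫_ℝ = ⟪x, d y⟫_ℝ := by
      intro x y
      have h1 : d x = c x - l • x := rfl
      have h2 : d y = c y - l • y := rfl
      rw [h1, h2, inner_sub_left, inner_sub_right, inner_smul_left, inner_smul_right, hsym]
      simp
    by_cases hd0 : d = 0
    · left
      intro x
      have := hdx x
      rw [hd0] at this
      simp only [ContinuousLinearMap.zero_apply, inner_zero_left] at this
      linarith
    set M : ℝ := ‖d‖ with hM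
    have hMpos : 0 < M := norm_pos_iff.2 hd0
    set u : H →L[ℝ] H := 1 - (M ^ 2)⁻¹ • (d * d) with hu
    have hu1 : ‖u‖ ≤ 1 := by
      refine ContinuousLinearMap.opNorm_le_bound _ zero_le_one fun x => ?_
      rw [one_mul]
      have hux : u x = x - (M ^ 2)⁻¹ • d (d x) := rfl
      have h1 : ‖u x‖ ^ 2 = ‖x‖ ^ 2 - 2 * ((M ^ 2)⁻¹ * ‖d x‖ ^ 2) + ((M ^ 2)⁻¹) ^ 2 * ‖d (d x)‖ ^ 2 := by
        rw [hux, norm_sub_sq_real, inner_smul_right, norm_smul, mul_pow, Real.norm_eq_abs, sq_abs,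
          ← hdsym, real_inner_self_eq_norm_sq]
      have h2 : ‖d (d x)‖ ≤ M * ‖d x‖ := d.le_opNorm _
      have h3 : ((M ^ 2)⁻¹) ^ 2 * ‖d (d x)‖ ^ 2 ≤ (M ^ 2)⁻¹ * ‖d x‖ ^ 2 := by
        have h4 : ‖d (d x)‖ ^ 2 ≤ (M * ‖d x‖) ^ 2 := pow_le_pow_left₀ (norm_nonneg _) h2 2
        calc ((M ^ 2)⁻¹) ^ 2 * ‖d (d x)‖ ^ 2 ≤ ((M ^ 2)⁻¹) ^ 2 * (M * ‖d x‖) ^ 2 :=
              mul_le_mul_of_nonneg_left h4 (by positivity)
          _ = (M ^ 2)⁻¹ * ‖d x‖ ^ 2 := by field_simp
      have h5 : 0 ≤ (M ^ 2)⁻¹ * ‖d x‖ ^ 2 := by positivity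
      have h6 : ‖u x‖ ^ 2 ≤ ‖x‖ ^ 2 := by rw [h1]; linarith
      exact le_of_sq_le_sq h6 (norm_nonneg _)
    set s : H →L[ℝ] H := sq1 u with hs
    have hss : s * s = (M ^ 2)⁻¹ • (d * d) := by
      rw [hs, sq1_sq hu1, hu]; abel
    have hdu : d * u = u * d := by
      have hg : ∀ (k : ℝ) (b : H →L[ℝ] H), b * (1 - k • (b * b)) = (1 - k • (b * b)) * b := by
        intro k b
        rw [mul_sub, sub_mul, mul_one, one_mul, mul_smul_comm, smul_mul_assoc, mul_assoc]
      exact hg _ _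
    have hds : d * s = s * d := sq1_comm hu1 hdu
    have huc : u ∈ S.centralizer := cm_sub cm_one (cm_smul _ (cm_mul hdc hdc))
    have hsc : s ∈ S.centralizer := by
      intro m hm
      exact sq1_comm hu1 (huc m hm)
    have hspos : ∀ x, 0 ≤ ⟪s x, x⟫_ℝ := by
      intro x
      have h1 : ‖(sg u : H →L[ℝ] H)‖ ≤ 1 := by
        unfold sg
        refine (norm_tsum_le_tsum_norm (summable_norm_term hu1)).trans ?_
        exact ((summable_norm_term hu1).tsum_le_tsum (term_le hu1) summable_cc).trans tsum_cc_le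
      have h2 : s x = x - sg u x := rfl
      rw [h2, inner_sub_left, real_inner_self_eq_norm_sq]
      have h3 : ⟪sg u x, x⟫_ℝ ≤ ‖sg u x‖ * ‖x‖ := real_inner_le_norm _ _
      have h4 : ‖sg u x‖ ≤ ‖x‖ := by
        have := (sg u : H →L[ℝ] H).le_of_opNorm_le h1 x
        rwa [one_mul] at this
      have h5 : ‖sg u x‖ * ‖x‖ ≤ ‖x‖ * ‖x‖ := mul_le_mul_of_nonneg_right h4 (norm_nonneg _)
      nlinarith
    have hprod : (M • s - d) * (M • s + d) = 0 := by
      have h1 : (M • s - d) * (M • s + d) = (M * M) • (s * s) + M • (s * d) - M • (d * s) - d * d := by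
        rw [sub_mul, mul_add, mul_add, smul_mul_smul_comm, smul_mul_assoc, mul_smul_comm]
        abel
      rw [h1, hds, hss, smul_smul]
      have h2 : M * M * (M ^ 2)⁻¹ = 1 := by field_simp
      rw [h2, one_smul]
      abel
    rcases hnz _ (cm_sub (cm_smul M hsc) hdc) _ (cm_add (cm_smul M hsc) hdc) hprod with h | h
    · left
      intro x
      have h1 : d x = M • s x := by
        have := congrArg (fun T : H →L[ℝ] H => T x) (sub_eq_zero.1 h)
        exact this.symm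
      have h2 := hdx x
      rw [h1, inner_smul_left] at h2
      have h3 : 0 ≤ M * ⟪s x, x⟫_ℝ := mul_nonneg hMpos.le (hspos x)
      simp only [conj_trivial] at h2
      linarith
    · right
      intro x
      have h1 : d x = -(M • s x) := by
        have := congrArg (fun T : H →L[ℝ] H => T x) (eq_neg_of_add_eq_zero_right h)
        exact this
      have h2 := hdx x
      rw [h1, inner_neg_left, inner_smul_left] at h2
      have h3 : 0 ≤ M * ⟪s x, x⟫_ℝ := mul_nonneg hMpos.le (hspos x)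
      simp only [conj_trivial] at h2
      linarith
  obtain ⟨x0, hx0⟩ := exists_ne (0 : H)
  have hn : 0 < ‖x0‖ ^ 2 := by have := norm_pos_iff.2 hx0; positivity
  set r : ℝ := ⟪c x0, x0⟫_ℝ / ‖x0‖ ^ 2 with hr
  have hr0 : ⟪c x0, x0⟫_ℝ = r * ‖x0‖ ^ 2 := by rw [hr, div_mul_cancel₀ _ hn.ne']
  have hlow : ∀ x : H, r * ‖x‖ ^ 2 ≤ ⟪c x, x⟫_ℝ := by
    intro x
    refine le_of_forall_lt fun t ht => ?_
    by_cases hx : ‖x‖ ^ 2 = 0
    · have hx' : x = 0 := by
        have := pow_eq_zero_iff (two_ne_zero) |>.1 hx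
        exact norm_eq_zero.1 this
      rw [hx', norm_zero] at ht
      rw [hx']
      simpa using ht
    have hxp : 0 < ‖x‖ ^ 2 := lt_of_le_of_ne (by positivity) (Ne.symm hx)
    -- choose l with t < l * ‖x‖^2 and l < r
    obtain ⟨l, hl1, hl2⟩ := exists_between (show t / ‖x‖ ^ 2 < r by rwa [div_lt_iff₀ hxp])
    rw [div_lt_iff₀ hxp] at hl1
    rcases key l with h | h
    · exact lt_of_lt_of_le hl1 (h x)
    · exfalso
      have := h x0
      rw [hr0] at this
      nlinarith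
  have hupp : ∀ x : H, ⟪c x, x⟫_ℝ ≤ r * ‖x‖ ^ 2 := by
    intro x
    refine le_of_forall_gt fun t ht => ?_
    by_cases hx : ‖x‖ ^ 2 = 0
    · have hx' : x = 0 := by
        have := pow_eq_zero_iff (two_ne_zero) |>.1 hx
        exact norm_eq_zero.1 this
      rw [hx', norm_zero] at ht
      rw [hx']
      simpa using ht
    have hxp : 0 < ‖x‖ ^ 2 := lt_of_le_of_ne (by positivity) (Ne.symm hx)
    obtain ⟨l, hl1, hl2⟩ := exists_between (show r < t / ‖x‖ ^ 2 by rwa [lt_div_iff₀ hxp])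
    rw [lt_div_iff₀ hxp] at hl2
    rcases key l with h | h
    · exfalso
      have := h x0
      rw [hr0] at this
      nlinarith
    · exact lt_of_le_of_lt (h x) hl2
  refine ⟨r, ?_⟩
  have h0 : ∀ x, ⟪(c - r • (1 : H →L[ℝ] H)) x, x⟫_ℝ = 0 := by
    intro x
    have h1 : (c - r • (1 : H →L[ℝ] H)) x = c x - r • x := rfl
    rw [h1, inner_sub_left, inner_smul_left, real_inner_self_eq_norm_sq]
    simp only [conj_trivial]
    have := hlow x
    have := hupp x
    linarith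
  have hsa2 : IsSelfAdjoint (c - r • (1 : H →L[ℝ] H)) :=
    hsa.sub ((IsSelfAdjoint.all r).smul (IsSelfAdjoint.one _))
  have h2 := (LinearMap.IsSymmetric.inner_map_self_eq_zero
    (ContinuousLinearMap.isSelfAdjoint_iff_isSymmetric.1 hsa2)).1 h0
  have h3 : c - r • (1 : H →L[ℝ] H) = 0 := by
    ext x
    exact congrArg (fun T : H →ₗ[ℝ] H => T x) h2
  exact sub_eq_zero.1 h3

end Pool.R988.BM
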